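import Pool.Agent.H62.BC.Idm
import Pool.Agent.H2.WG.Trunc

/-!
# Modules over `P ⊗ k[z]/(z^(L+1))`
-/

open TensorProduct Module

namespace Pool.Agent.H62.BC

open Pool.Agent.H15.Defect Pool.Agent.H15.CX Pool.Agent.H2.WG

universe u

section tra

variable {k Y Y' : Type u} [Field k] [AddCommGroup Y] [Module k Y] [AddCommGroup Y'] [Module k Y']

/-- The action of `k[z]/(z^(L+1))` by a nilpotent operator. -/
noncomputable def trA (L : ℕ) (T : Module.End k Y) (hT : T ^ (L + 1) = 0) :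
    Tr k L →ₐ[k] Module.End k Y :=
  Ideal.Quotient.liftₐ _ (Polynomial.aeval T) (by
    intro a ha
    obtain ⟨b, rfl⟩ := Ideal.mem_span_singleton.mp ha
    rw [map_mul, map_pow, Polynomial.aeval_X, hT, zero_mul])

theorem trA_mk {L : ℕ} (T : Module.End k Y) (hT : T ^ (L + 1) = 0) (p : Polynomial k) :
    trA L T hT (Ideal.Quotient.mk _ p) = Polynomial.aeval T p := rfl

theorem trA_tr {L : ℕ} (T : Module.End k Y) (hT : T ^ (L + 1) = 0) : trA L T hT (tr k L) = T := by
  rw [tr, trA_mk, Polynomial.aeval_X]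

theorem aeval_intertwine {T : Module.End k Y} {T' : Module.End k Y'} (g : Y →ₗ[k] Y')
    (h : ∀ y, g (T y) = T' (g y)) (p : Polynomial k) :
    ∀ y, g (Polynomial.aeval T p y) = Polynomial.aeval T' p (g y) := by
  have h1 : ∀ (n : ℕ) y, g ((T ^ n) y) = (T' ^ n) (g y) := by
    intro n
    induction n with
    | zero => intro y; rfl
    | succ n ih =>
      intro y
      rw [pow_succ, pow_succ]
      show g ((T ^ n) (T y)) = (T' ^ n) (T' (g y))
      rw [ih, h]
  induction p using Polynomial.induction_on' with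
  | add p q hp hq =>
    intro y
    rw [map_add, map_add, LinearMap.add_apply, LinearMap.add_apply, map_add, hp, hq]
  | monomial n a =>
    intro y
    rw [Polynomial.aeval_monomial, Polynomial.aeval_monomial, Module.End.mul_apply,
      Module.End.mul_apply, Module.algebraMap_end_apply, Module.algebraMap_end_apply, map_smul, h1]

theorem trA_intertwine {L : ℕ} {T : Module.End k Y} {T' : Module.End k Y'} {hT : T ^ (L + 1) = 0}
    {hT' : T' ^ (L + 1) = 0} (g : Y →ₗ[k] Y') (h : ∀ y, g (T y) = T' (g y)) (s : Tr k L) (y : Y) :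
    g (trA L T hT s y) = trA L T' hT' s (g y) := by
  obtain ⟨p, rfl⟩ := Ideal.Quotient.mk_surjective s
  rw [trA_mk, trA_mk, aeval_intertwine g h]

end tra

section act

variable {k P Y Y' Y₁ Y₂ : Type u} [Field k] [CommRing P] [Algebra k P] [AddCommGroup Y]
  [Module k Y] [AddCommGroup Y'] [Module k Y'] [AddCommGroup Y₁] [Module k Y₁] [AddCommGroup Y₂]
  [Module k Y₂]

/-- The ring `P ⊗ k[z]/(z^(L+1))`. -/
def PT (k P : Type u) [Field k] [CommRing P] [Algebra k P] (L : ℕ) : Type u := P ⊗[k] Tr k L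

noncomputable instance (L : ℕ) : CommRing (PT k P L) := inferInstanceAs (CommRing (P ⊗[k] Tr k L))

noncomputable instance (L : ℕ) : Algebra k (PT k P L) :=
  inferInstanceAs (Algebra k (P ⊗[k] Tr k L))

/-- pure tensors -/
noncomputable def pt {L : ℕ} (p : P) (s : Tr k L) : PT k P L := p ⊗ₜ[k] s

theorem PT.induction {L : ℕ} {motive : PT k P L → Prop} (zero : motive 0)
    (add : ∀ r s, motive r → motive s → motive (r + s))
    (tmul : ∀ (p : P) (s : Tr k L), motive (pt p s)) (r : PT k P L) : motive r :=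
  TensorProduct.induction_on (motive := motive) r zero tmul add

/-- The action of `P ⊗ k[z]/(z^(L+1))`. -/
noncomputable def act (ρ : P →ₐ[k] Module.End k Y) (L : ℕ) (T : Module.End k Y)
    (hT : T ^ (L + 1) = 0) (hc : ∀ p y, ρ p (T y) = T (ρ p y)) :
    PT k P L →ₐ[k] Module.End k Y :=
  (Algebra.TensorProduct.lift ρ (trA L T hT) (fun p s => LinearMap.ext fun y =>
    trA_intertwine (ρ p) (hc p) s y) : P ⊗[k] Tr k L →ₐ[k] Module.End k Y)

variable {ρ : P →ₐ[k] Module.End k Y} {ρ' : P →ₐ[k] Module.End k Y'} {L : ℕ}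
  {T : Module.End k Y} {T' : Module.End k Y'} {hT : T ^ (L + 1) = 0} {hT' : T' ^ (L + 1) = 0}
  {hc : ∀ p y, ρ p (T y) = T (ρ p y)} {hc' : ∀ p y, ρ' p (T' y) = T' (ρ' p y)}

theorem act_tmul (p : P) (s : Tr k L) (y : Y) :
    act ρ L T hT hc (pt p s) y = ρ p (trA L T hT s y) := rfl

theorem act_intertwine (g : Y →ₗ[k] Y') (hg : ∀ p y, g (ρ p y) = ρ' p (g y))
    (h : ∀ y, g (T y) = T' (g y)) (r : PT k P L) (y : Y) :
    g (act ρ L T hT hc r y) = act ρ' L T' hT' hc' r (g y) := by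
  induction r using PT.induction with
  | zero => rw [map_zero, map_zero, LinearMap.zero_apply, LinearMap.zero_apply, map_zero]
  | add r s hr hs =>
    rw [map_add, map_add, LinearMap.add_apply, LinearMap.add_apply, map_add, hr, hs]
  | tmul p s => rw [act_tmul, act_tmul, hg, trA_intertwine (hT' := hT') g h]

theorem LeM.act_surjective (g : Y →ₗ[k] Y') (hs : Function.Surjective g)
    (hg : ∀ p y, g (ρ p y) = ρ' p (g y)) (h : ∀ y, g (T y) = T' (g y)) :
    LeM (act ρ L T hT hc) (act ρ' L T' hT' hc') :=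
  LeM.of_surjective g hs (act_intertwine g hg h)

theorem LeM.act_injective (g : Y' →ₗ[k] Y) (hs : Function.Injective g)
    (hg : ∀ p y, g (ρ' p y) = ρ p (g y)) (h : ∀ y, g (T' y) = T (g y)) :
    LeM (act ρ L T hT hc) (act ρ' L T' hT' hc') :=
  LeM.of_injective g hs (act_intertwine g hg h)

theorem LeM.act_split {ρ₁ : P →ₐ[k] Module.End k Y₁} {ρ₂ : P →ₐ[k] Module.End k Y₂}
    {T₁ : Module.End k Y₁} {T₂ : Module.End k Y₂} {hT₁ : T₁ ^ (L + 1) = 0}
    {hT₂ : T₂ ^ (L + 1) = 0} {hc₁ : ∀ p y, ρ₁ p (T₁ y) = T₁ (ρ₁ p y)}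
    {hc₂ : ∀ p y, ρ₂ p (T₂ y) = T₂ (ρ₂ p y)} (j : Y₁ →ₗ[k] Y) (g : Y →ₗ[k] Y₂)
    (inj : Function.Injective j) (surj : Function.Surjective g) (comp : ∀ y, g (j y) = 0)
    (hj : ∀ p y, j (ρ₁ p y) = ρ p (j y)) (hg : ∀ p y, g (ρ p y) = ρ₂ p (g y))
    (hj' : ∀ y, j (T₁ y) = T (j y)) (hg' : ∀ y, g (T y) = T₂ (g y)) :
    LeM (act ρ L T hT hc)
      (prodE (act ρ₁ L T₁ hT₁ hc₁) (act ρ₂ L T₂ hT₂ hc₂)) :=
  SplitM.le (t_dual k)
    { j := j
      g := g
      inj := inj
      surj := surj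
      comp := comp
      hj := act_intertwine j hj hj'
      hg := act_intertwine g hg hg' }

end act

end Pool.Agent.H62.BC
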