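import Pool.Agent.H62.BC.Main
import Pool.Agent.H15.CX.Growth

/-!
# Exponential constants for powers
-/

open TensorProduct Module

namespace Pool.Agent.H62.BC

open Pool.Agent.H12.Defect Pool.Agent.H15.Defect Pool.Agent.H15.CX Pool.Agent.H2.WG
open Pool.Agent.H15.ER
open Pool.Agent.H14.RF hiding tr

universe u

/-- Freeing one variable, with explicit constants. -/
def T_P1v : Prop :=
  ∀ (k : Type u) [Field k] [IsAlgClosed k] (e : ℕ), ∃ (L c : ℕ), e ≤ L ∧ 1 ≤ c ∧
    ∀ (P E : Type u) [CommRing P] [Algebra k P] [AddCommGroup E] [Module k E]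
      (ρ : P →ₐ[k] Module.End k E) (t : Module.End k E) (hc : ∀ p y, ρ p (t y) = t (ρ p y))
      (ht : t ^ (L + 1) = 0) (C : ℕ), t ^ (e + 1) = 0 → BCc ρ C →
      BCc (act ρ L t ht hc) (c * (finrank k E + C))

theorem pf_P1v (h3 : T_L3.{u}) (hA : T_STA.{u}) (hB : T_STB.{u}) (hC : T_STC.{u})
    (hG : T_GOOD.{u}) : T_P1v.{u} := by
  intro k _ _ e
  obtain ⟨n, hn, hM⟩ := h3 k e
  obtain ⟨L, rfl⟩ : ∃ L, n = L + 1 := ⟨n - 1, by omega⟩
  refine ⟨L, (L + 1) + (L + 1) * (e + 1), by omega, by omega, ?_⟩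
  intro P E _ _ _ _ ρ t hc ht C hte hBC u
  set h : ℕ := (u + (L + 1)) / ((L + 1) * (e + 1)) + 1 with hh
  obtain ⟨M, hgood, hcoef⟩ := hM h
  have hcard : Fintype.card (Fin (e + 1) × Fin h) = (e + 1) * h := by simp
  have h1 := dle_step hA hB hC hG ρ t hc L e ht hte M hgood hcoef
    (((e + 1) * h) * finrank k E + C) (by rw [hcard]; exact hBC _)
  rw [hcard] at h1
  have hpos : 0 < (L + 1) * (e + 1) := by positivity
  have h4 := Nat.div_add_mod (u + (L + 1)) ((L + 1) * (e + 1))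
  have h5 := Nat.mod_lt (u + (L + 1)) hpos
  have h6 : (L + 1) * ((e + 1) * h) = (L + 1) * (e + 1) * ((u + (L + 1)) / ((L + 1) * (e + 1))) +
      (L + 1) * (e + 1) := by
    rw [hh]
    ring
  have h7 : u + (L + 1) ≤ (L + 1) * ((e + 1) * h) := by omega
  have h8 : (L + 1) * ((e + 1) * h) ≤ u + (L + 1) + (L + 1) * (e + 1) := by omega
  have h9 : u ≤ (L + 1) * ((e + 1) * h - 1) := by
    rw [Nat.mul_sub, mul_one]
    omega
  refine ((leM_powE_mono _ h9).dle h1).mono ?_
  calc ((e + 1) * h * finrank k E + C) * (L + 1) =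
      (L + 1) * ((e + 1) * h) * finrank k E + (L + 1) * C := by ring
    _ ≤ (u + (L + 1) + (L + 1) * (e + 1)) * finrank k E + (L + 1) * C :=
        Nat.add_le_add_right (Nat.mul_le_mul_right _ h8) _
    _ ≤ (u + (L + 1) + (L + 1) * (e + 1)) * finrank k E +
        ((L + 1) + (L + 1) * (e + 1)) * C :=
        Nat.add_le_add_left (Nat.mul_le_mul_right _ (Nat.le_add_right _ _)) _
    _ = _ := by ring

theorem gen_v (h : T_P1v.{u}) (k : Type u) [Field k] [IsAlgClosed k] (e : ℕ) :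
    ∃ c : ℕ, 1 ≤ c ∧ ∀ r : ℕ, ∀ (A E : Type u) [CommRing A] [Algebra k A] [AddCommGroup E]
      [Module k E] [Module.Finite k E] (ρ : A →ₐ[k] Module.End k E), Function.Injective ρ →
      ∀ l : List A, l.length = r → (∀ x ∈ l, x ^ (e + 1) = 0) →
      ∃ (P : Type u) (_ : CommRing P) (_ : Algebra k P) (q : P →ₐ[k] A),
        (∀ x ∈ l, x ∈ q.range) ∧ BCc (ρ.comp q) ((2 * c) ^ r * (finrank k E + 1)) := by
  obtain ⟨L, c, hL, hc1, h⟩ := h k e
  refine ⟨c, hc1, ?_⟩
  intro r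
  induction r with
  | zero =>
    intro A E _ _ _ _ _ ρ _ l hl _
    have hl0 : l = [] := List.length_eq_zero_iff.mp hl
    subst hl0
    refine ⟨k, inferInstance, inferInstance, Algebra.ofId k A, by simp, fun u => ?_⟩
    refine (gen_nil ρ u).mono ?_
    rw [pow_zero, one_mul]
    omega
  | succ r ih =>
    intro A E _ _ _ _ _ ρ hρ l hl hnil
    obtain ⟨x, l, rfl⟩ := List.exists_cons_of_length_eq_add_one hl
    obtain ⟨P, iP, aP, q, hq, hBC⟩ := ih A E ρ hρ l (by simpa using hl)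
      (fun y hy => hnil y (List.mem_cons_of_mem x hy))
    have hc : ∀ p y, (ρ.comp q) p (ρ x y) = ρ x ((ρ.comp q) p y) := by
      intro p y
      exact Idm.ρcomm (ρ := ρ) (q p) x y
    have hx : x ^ (e + 1) = 0 := hnil x List.mem_cons_self
    have hx' : x ^ (L + 1) = 0 := pow_eq_zero_of_le (by omega) hx
    have ht : ρ x ^ (L + 1) = 0 := by rw [← map_pow, hx', map_zero]
    have hte : ρ x ^ (e + 1) = 0 := by rw [← map_pow, hx, map_zero]
    have h4 := h P E (ρ.comp q) (ρ x) hc ht _ hte hBC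
    obtain ⟨q', h1, h2, h3⟩ := gen_cons ρ q x L hc hx' ht
    refine ⟨PT k P L, inferInstance, inferInstance, q', ?_, ?_⟩
    · intro y hy
      rcases List.mem_cons.1 hy with rfl | hy
      · exact ⟨_, h2⟩
      · obtain ⟨p, hp⟩ := hq y hy
        exact ⟨pt p 1, (h1 p).trans hp⟩
    · rw [← h3]
      intro u
      refine (h4 u).mono (Nat.add_le_add_left ?_ _)
      have h5 : 1 ≤ (2 * c) ^ r := Nat.one_le_pow _ _ (by omega)
      have h6 : finrank k E ≤ (2 * c) ^ r * (finrank k E + 1) := by nlinarith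
      calc c * (finrank k E + (2 * c) ^ r * (finrank k E + 1)) ≤
          c * ((2 * c) ^ r * (finrank k E + 1) + (2 * c) ^ r * (finrank k E + 1)) := by gcongr
        _ = (2 * c) ^ (r + 1) * (finrank k E + 1) := by ring

/-- `A` is generated by `r` elements whose `(e+1)`-st powers are zero. -/
def Gen (k : Type u) [Field k] (e r : ℕ) (A : Type u) [CommRing A] [Algebra k A] : Prop :=
  ∃ l : List A, l.length = r ∧ (∀ x ∈ l, x ^ (e + 1) = 0) ∧
      ∀ S : Subalgebra k A, (∀ x ∈ l, x ∈ S) → S = ⊤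

section gen

variable {k : Type u} [Field k] {A B : Type u} [CommRing A] [Algebra k A] [CommRing B]
  [Algebra k B] {e r r' : ℕ}

theorem Gen.self (k : Type u) [Field k] (e : ℕ) : Gen k e 0 k :=
  ⟨[], rfl, by simp, fun _ _ => Subsingleton.elim _ _⟩

theorem Gen.tensor (h : Gen k e r A) (h' : Gen k e r' B) : Gen k e (r + r') (A ⊗[k] B) := by
  obtain ⟨l, h1, h2, h3⟩ := h
  obtain ⟨l', h1', h2', h3'⟩ := h'
  let f : A →ₐ[k] A ⊗[k] B := Algebra.TensorProduct.includeLeft
  let g : B →ₐ[k] A ⊗[k] B := Algebra.TensorProduct.includeRight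
  refine ⟨l.map f ++ l'.map g, by simp [h1, h1'], ?_, ?_⟩
  · intro x hx
    rcases List.mem_append.mp hx with hx | hx
    · obtain ⟨y, hy, rfl⟩ := List.mem_map.mp hx
      rw [← map_pow, h2 y hy, map_zero]
    · obtain ⟨y, hy, rfl⟩ := List.mem_map.mp hx
      rw [← map_pow, h2' y hy, map_zero]
  · intro S hS
    have h4 : S.comap f = ⊤ := h3 _ fun x hx =>
      hS _ (List.mem_append.mpr (Or.inl (List.mem_map.mpr ⟨x, hx, rfl⟩)))
    have h5 : S.comap g = ⊤ := h3' _ fun x hx =>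
      hS _ (List.mem_append.mpr (Or.inr (List.mem_map.mpr ⟨x, hx, rfl⟩)))
    rw [eq_top_iff]
    intro z _
    induction z using TensorProduct.induction_on with
    | zero => exact zero_mem _
    | add x y hx hy => exact add_mem (hx trivial) (hy trivial)
    | tmul a b =>
      have h6 : a ∈ S.comap f := by rw [h4]; trivial
      have h7 : b ∈ S.comap g := by rw [h5]; trivial
      have h8 : a ⊗ₜ[k] b = f a * g b := by
        show a ⊗ₜ[k] b = (a ⊗ₜ[k] (1 : B)) * ((1 : A) ⊗ₜ[k] b)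
        rw [Algebra.TensorProduct.tmul_mul_tmul, mul_one, one_mul]
      rw [h8]
      exact S.mul_mem h6 h7

theorem Gen.of_local [Module.Finite k A] (α : A →ₐ[k] k) (c : ℕ) (hc : RingHom.ker α ^ c = ⊥)
    (he : finrank k A ≤ e) : Gen k e (finrank k A) A := by
  obtain ⟨l, h1, h2, h3⟩ := exists_gens α c hc
  exact ⟨l, h1, fun x hx => pow_eq_zero_of_le (by omega) (h2 x hx), h3⟩

end gen

theorem dle_gen (h : T_P1v.{u}) (k : Type u) [Field k] [IsAlgClosed k] (e : ℕ) :
    ∃ c : ℕ, 1 ≤ c ∧ ∀ (r : ℕ) (B : Type u) [CommRing B] [Algebra k B] [Module.Finite k B]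
      [Nontrivial B], Gen k e r B → ∀ b : ℕ,
      Dle k (B ⊗[k] ZZ k b) (finrank k B * b + (2 * c) ^ r * (finrank k B + 1)) := by
  obtain ⟨c, hc, h⟩ := gen_v h k e
  refine ⟨c, hc, ?_⟩
  intro r B _ _ _ _ hB b
  obtain ⟨l, h1, h2, h3⟩ := hB
  obtain ⟨P, iP, aP, q, hq, hBC⟩ := h r B B (Algebra.lmul k B) (by
    intro x y hxy
    have := LinearMap.congr_fun hxy 1
    simpa using this) l h1 h2
  have hsur : Function.Surjective q := by
    have h4 := h3 q.range hq
    intro x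
    have h5 : x ∈ q.range := by rw [h4]; trivial
    exact h5
  obtain ⟨α⟩ := exists_point (k := k) (A := B)
  have h6 := (hBC b).of_surjective (Pool.Agent.H14.BC.toIdz α q b)
    (Pool.Agent.H14.BC.toIdz_surjective α q b hsur)
  have h7 := dle_tensor_ZZ (le_refl b) h6
  rwa [mul_comm b] at h7

end Pool.Agent.H62.BC
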