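import Pool.Agent.H62.BC.Main

/-!
# Bounded catalysis: the final form
-/

open TensorProduct Module

namespace Pool.Agent.H62.BC

open Pool.Agent.H12.Defect Pool.Agent.H14.MM Pool.Agent.H15.Defect Pool.Agent.H15.CX
open Pool.Agent.H15.ER
open Pool.Agent.H14.RF hiding tr

universe u

theorem defect_le {k A : Type u} [Field k] [CommRing A] [Algebra k A] {N C : ℕ} (h : Dle k A N)
    (hN : N ≤ finrank k A + C) : defect k A ≤ (C : ℕ∞) := by
  obtain ⟨h1, -, h3⟩ := defect_eq h
  rw [← ENat.coe_toNat h1]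
  exact_mod_cast (by omega : (defect k A).toNat ≤ C)

section mods

variable {k A E : Type u} [Field k] [CommRing A] [Algebra k A] [AddCommGroup E] [Module k E]
  [Module A E] [IsScalarTower k A E] [Module Aᵐᵒᵖ E] [IsCentralScalar A E]

/-- the comparison map -/
def toTriv (ι : Type) : Idm (powE (Algebra.lsmul k k E : A →ₐ[k] Module.End k E) ι) →ₐ[k]
    TrivSqZeroExt A (ι → E) :=
  AlgHom.ofLinearMap
    { toFun := fun z => ((z.1, z.2) : A × (ι → E))
      map_add' := fun _ _ => rfl
      map_smul' := fun _ _ => rfl }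
    rfl
    (by
      intro x y
      apply TrivSqZeroExt.ext
      · rfl
      · show x.1 • y.2 + y.1 • x.2 = x.1 • y.2 + MulOpposite.op y.1 • x.2
        rw [op_smul_eq_smul])

theorem toTriv_surjective (ι : Type) :
    Function.Surjective (toTriv (k := k) (A := A) (E := E) ι) := by
  intro z
  exact ⟨((z.fst, z.snd) : A × (ι → E)), rfl⟩

theorem finrank_triv [Module.Finite k A] [Module.Finite k E] (b : ℕ) :
    finrank k (TrivSqZeroExt A (Fin b → E)) = finrank k A + b * finrank k E := by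
  have h1 : finrank k (TrivSqZeroExt A (Fin b → E)) = finrank k (A × (Fin b → E)) := rfl
  rw [h1, Module.finrank_prod, Module.finrank_pi_fintype]
  simp

end mods

/-- Bounded catalysis for modules. -/
theorem bounded_modules (k : Type u) [Field k] [IsAlgClosed k] (d m : ℕ) : ∃ C : ℕ,
    ∀ (A E : Type u) [CommRing A] [Algebra k A] [Module.Finite k A] [AddCommGroup E] [Module k E]
      [Module.Finite k E] [Module A E] [IsScalarTower k A E] [Module Aᵐᵒᵖ E] [IsCentralScalar A E],
      finrank k A = d → finrank k E = m →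
      ∀ b : ℕ, defect k (TrivSqZeroExt A (Fin b → E)) ≤ (C : ℕ∞) := by
  obtain ⟨C, hC⟩ := all_BCu k d m
  refine ⟨C, ?_⟩
  intro A E _ _ _ _ _ _ _ _ _ _ hd hm b
  have h1 := (hC A E (Algebra.lsmul k k E) hd hm b).of_surjective (toTriv (Fin b))
    (toTriv_surjective (Fin b))
  refine defect_le h1 ?_
  rw [finrank_triv, hm]
  omega

/-- The quantitative form. -/
theorem bounded_growth (k : Type u) [Field k] [IsAlgClosed k] (d : ℕ) : ∃ C : ℕ,
    ∀ (A : Type u) [CommRing A] [Algebra k A] [Module.Finite k A] [Nontrivial A],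
      finrank k A = d → ∀ b : ℕ,
      defect k (A ⊗[k] ZZ k b) ≤ (C : ℕ∞) ∧
      (d * ((b : ℝ) + 1) ≤ Lam k (A ⊗[k] ZZ k b) ∧
        Lam k (A ⊗[k] ZZ k b) ≤ d * ((b : ℝ) + 1) + C) ∧
      (d + ((b : ℝ) + 1) ≤ Lam k (A × ZZ k b) ∧
        Lam k (A × ZZ k b) ≤ d + ((b : ℝ) + 1) + C / ((b : ℝ) + 1)) := by
  obtain ⟨C, h⟩ := all_BCu k d d
  refine ⟨C + C * (4 * C + 1), ?_⟩
  intro A _ _ _ _ hd b
  subst hd
  obtain ⟨α⟩ := exists_point (k := k) (A := A)
  have hN : ∀ b : ℕ, Dle k (A ⊗[k] ZZ k b) (finrank k A * b + C) := by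
    intro b
    have h1 := (h A A (Algebra.lmul k A) rfl rfl b).of_surjective
      (Pool.Agent.H14.BC.toIdz α (AlgHom.id k A) b)
      (Pool.Agent.H14.BC.toIdz_surjective α (AlgHom.id k A) b Function.surjective_id)
    have h2 := dle_tensor_ZZ (le_refl b) h1
    rwa [mul_comm]
  have hD : Dle k A C := by
    have h1 := h A A (Algebra.lmul k A) rfl rfl 0
    rw [zero_mul, zero_add] at h1
    refine h1.of_surjective (Idm.prj _) ?_
    intro a
    exact ⟨((a, 0) : A × (Fin 0 → A)), rfl⟩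
  have hb0 : (0 : ℝ) < (b : ℝ) + 1 := by positivity
  have hC0 : (0 : ℝ) ≤ C := Nat.cast_nonneg C
  have hf0 : (0 : ℝ) ≤ finrank k A := Nat.cast_nonneg _
  have hDD : (0 : ℝ) ≤ (C : ℝ) * (4 * C + 1) := by positivity
  have hle : ((finrank k A * b + C : ℕ) : ℝ) ≤ finrank k A * ((b : ℝ) + 1) + C := by
    push_cast
    nlinarith
  refine ⟨defect_le (hN b) ?_, ⟨?_, ?_⟩, ⟨?_, ?_⟩⟩
  · rw [finrank_tensor_ZZ]
    have h2 : finrank k A * (b + 1) = finrank k A * b + finrank k A := by ring
    omega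
  · have h4 := finrank_le_Lam (k := k) (A := A ⊗[k] ZZ k b)
    rw [finrank_tensor_ZZ] at h4
    push_cast at h4
    exact h4
  · refine (Lam_le_of_dle (hN b)).trans (hle.trans ?_)
    push_cast
    linarith
  · have h4 := finrank_le_Lam (k := k) (A := A × ZZ k b)
    rw [Module.finrank_prod, finrank_ZZ] at h4
    push_cast at h4
    exact h4
  · rcases Nat.lt_or_ge (b + 1) (4 * C) with hbD | hbD
    · have h1 : Lam k (A × ZZ k b) ≤ ((C + (b + 1) : ℕ) : ℝ) :=
        Lam_le_of_dle (hD.prod (dle_ZZ k b))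
      push_cast at h1
      have h2 : (b : ℝ) + 1 ≤ 4 * (C : ℝ) + 1 := by
        have : ((b + 1 : ℕ) : ℝ) ≤ ((4 * C : ℕ) : ℝ) := by exact_mod_cast hbD.le
        push_cast at this
        linarith
      have h5 : (C : ℝ) ≤ ((C + C * (4 * C + 1) : ℕ) : ℝ) / ((b : ℝ) + 1) := by
        rw [le_div_iff₀ hb0]
        push_cast
        nlinarith
      linarith
    · have h1 := bd_union (hN b) (dle_ZZ k b) hD (Nat.succ_pos b) hbD
      have h2 := Lam_le_of_bd (by positivity) h1
      push_cast at h2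
      have h3 : ((finrank k A : ℝ) * b + C) / ((b : ℝ) + 1) ≤
          finrank k A + ((C + C * (4 * C + 1) : ℕ) : ℝ) / ((b : ℝ) + 1) := by
        rw [← sub_nonneg]
        have h4 : finrank k A + ((C + C * (4 * C + 1) : ℕ) : ℝ) / ((b : ℝ) + 1) -
            ((finrank k A : ℝ) * b + C) / ((b : ℝ) + 1) =
            (finrank k A + (C : ℝ) * (4 * C + 1)) / ((b : ℝ) + 1) := by
          push_cast
          field_simp
          ring
        rw [h4]
        positivity
      linarith

end Pool.Agent.H62.BC
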