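import Pool.Agent.H62.BC.Targets

/-!
# From local algebras to all algebras, and the quantitative form
-/

open TensorProduct Module

namespace Pool.Agent.H62.BC

open Pool.Agent.H12.Defect Pool.Agent.H15.Defect Pool.Agent.H15.CX Pool.Agent.H2.WG
open Pool.Agent.H15.ER
open Pool.Agent.H14.RF hiding tr

universe u

/-- bounded catalysis for one algebra -/
def BCp (k A : Type u) [Field k] [CommRing A] [Algebra k A] : Prop :=
  ∃ C : ℕ, ∀ b : ℕ, Dle k (A ⊗[k] ZZ k b) (finrank k A * b + C)

variable {k : Type u} [Field k]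

theorem BCp.of_equiv {A A' : Type u} [CommRing A] [Algebra k A] [CommRing A'] [Algebra k A']
    (h : BCp k A) (e : A ≃ₐ[k] A') : BCp k A' := by
  obtain ⟨C, h⟩ := h
  refine ⟨C, fun b => ?_⟩
  rw [← LinearEquiv.finrank_eq e.toLinearEquiv]
  exact (h b).of_equiv (Algebra.TensorProduct.congr e AlgEquiv.refl)

theorem BCp.prod {A A' : Type u} [CommRing A] [Algebra k A] [CommRing A'] [Algebra k A']
    [Module.Finite k A] [Module.Finite k A'] (h : BCp k A) (h' : BCp k A') :
    BCp k (A × A') := by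
  obtain ⟨C, h⟩ := h
  obtain ⟨C', h'⟩ := h'
  refine ⟨C + C', fun b => ?_⟩
  have e1 : Dle k (ZZ k b ⊗[k] A) (finrank k A * b + C) :=
    (h b).of_equiv (Algebra.TensorProduct.comm k A (ZZ k b))
  have e2 : Dle k (ZZ k b ⊗[k] A') (finrank k A' * b + C') :=
    (h' b).of_equiv (Algebra.TensorProduct.comm k A' (ZZ k b))
  have e3 : Dle k (ZZ k b ⊗[k] (A × A')) (finrank k A * b + C + (finrank k A' * b + C')) :=
    (e1.prod e2).of_equiv (Algebra.TensorProduct.prodRight k k (ZZ k b) A A').symm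
  have e4 : Dle k ((A × A') ⊗[k] ZZ k b) (finrank k A * b + C + (finrank k A' * b + C')) :=
    e3.of_equiv (Algebra.TensorProduct.comm k (ZZ k b) (A × A'))
  have e5 : finrank k A * b + C + (finrank k A' * b + C') =
      finrank k (A × A') * b + (C + C') := by
    rw [Module.finrank_prod]
    ring
  rwa [e5] at e4

theorem bcp_all (h : T_LOC.{u}) [IsAlgClosed k] : ∀ (n : ℕ) (A : Type u) [CommRing A]
    [Algebra k A] [Module.Finite k A] [Nontrivial A], finrank k A = n → BCp k A := by
  intro n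
  induction n using Nat.strong_induction_on with
  | _ n ih =>
    intro A _ _ _ _ hn
    obtain ⟨α⟩ := exists_point (k := k) (A := A)
    rcases local_or_split α with ⟨c, hc⟩ | ⟨A₁, A₂, _, _, _, _, _, _, _, _, ⟨E⟩⟩
    · exact h k A α c hc
    · have hfr : finrank k A = finrank k A₁ + finrank k A₂ := by
        rw [← Module.finrank_prod]
        exact LinearEquiv.finrank_eq E.toLinearEquiv
      have hp1 := Module.finrank_pos (R := k) (M := A₁)
      have hp2 := Module.finrank_pos (R := k) (M := A₂)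
      exact ((ih _ (by omega) A₁ rfl).prod (ih _ (by omega) A₂ rfl)).of_equiv E.symm

theorem pf_BC (h : T_LOC.{u}) : T_BC.{u} := by
  intro k A _ _ _ _ _ _
  exact bcp_all h _ A rfl

theorem pf_QNT (h : T_BC.{u}) : T_QNT.{u} := by
  intro k A _ _ _ _ _ _
  obtain ⟨C, h⟩ := h k A
  obtain ⟨D, hD⟩ := exists_dle (k := k) A
  refine ⟨C + D * (4 * D + 1), fun b => ?_⟩
  have hN := h b
  have hb0 : (0 : ℝ) < (b : ℝ) + 1 := by positivity
  have hC0 : (0 : ℝ) ≤ C := Nat.cast_nonneg C
  have hD0 : (0 : ℝ) ≤ D := Nat.cast_nonneg D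
  have hf0 : (0 : ℝ) ≤ finrank k A := Nat.cast_nonneg _
  have hDD : (0 : ℝ) ≤ (D : ℝ) * (4 * D + 1) := by positivity
  have hle : ((finrank k A * b + C : ℕ) : ℝ) ≤ finrank k A * ((b : ℝ) + 1) + C := by
    push_cast
    nlinarith
  refine ⟨?_, ?_, ?_⟩
  · have h1 := (defect_eq hN).2.2
    rw [finrank_tensor_ZZ] at h1
    have h2 : finrank k A * (b + 1) = finrank k A * b + finrank k A := by ring
    rw [h2] at h1
    omega
  · refine (Lam_le_of_dle hN).trans (hle.trans ?_)
    push_cast
    linarith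
  · rcases Nat.lt_or_ge (b + 1) (4 * D) with hbD | hbD
    · have h1 : Lam k (A × ZZ k b) ≤ ((D + (b + 1) : ℕ) : ℝ) :=
        Lam_le_of_dle (hD.prod (dle_ZZ k b))
      push_cast at h1
      have h2 : (b : ℝ) + 1 ≤ 4 * (D : ℝ) + 1 := by
        have : ((b + 1 : ℕ) : ℝ) ≤ ((4 * D : ℕ) : ℝ) := by exact_mod_cast hbD.le
        push_cast at this
        linarith
      have h5 : (D : ℝ) ≤ ((C + D * (4 * D + 1) : ℕ) : ℝ) / ((b : ℝ) + 1) := by
        rw [le_div_iff₀ hb0]
        push_cast
        nlinarith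
      linarith
    · have h1 := bd_union hN (dle_ZZ k b) hD (Nat.succ_pos b) hbD
      have h2 := Lam_le_of_bd (by positivity) h1
      push_cast at h2
      have h3 : ((finrank k A : ℝ) * b + C) / ((b : ℝ) + 1) ≤
          finrank k A + ((C + D * (4 * D + 1) : ℕ) : ℝ) / ((b : ℝ) + 1) := by
        rw [← sub_nonneg]
        have h4 : finrank k A + ((C + D * (4 * D + 1) : ℕ) : ℝ) / ((b : ℝ) + 1) -
            ((finrank k A : ℝ) * b + C) / ((b : ℝ) + 1) =
            (finrank k A + (D : ℝ) * (4 * D + 1)) / ((b : ℝ) + 1) := by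
          push_cast
          field_simp
          ring
        rw [h4]
        positivity
      linarith

end Pool.Agent.H62.BC
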