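import Pool.Agent.H15.CX.Dual
import Pool.Agent.H15.CX.Recur

/-!
# Idealizations of modules

For a commutative `k`-algebra `P` and a `P`-module `Y`, given by `ρ : P →ₐ[k] Module.End k Y`, the
algebra `P ⊕ Y` in which `Y` is an ideal of square zero, and the exchange relation for modules.
-/

open TensorProduct Module

namespace Pool.Agent.H62.BC

open Pool.Agent.H15.Defect Pool.Agent.H15.CX

universe u

section defn

variable {k P Y : Type u} [Field k] [CommRing P] [Algebra k P] [AddCommGroup Y] [Module k Y]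

/-- The algebra `P ⊕ Y` with product `(p, y) (p', y') = (p p', p y' + p' y)`. -/
def Idm (_ : P →ₐ[k] Module.End k Y) : Type u := P × Y

namespace Idm

variable (ρ : P →ₐ[k] Module.End k Y)

/-- auxiliary: additive structure -/
@[reducible] def auxAdd : AddCommGroup (Idm ρ) := inferInstanceAs (AddCommGroup (P × Y))

attribute [local instance] auxAdd

/-- auxiliary: vector space structure -/
@[reducible] def auxModule : Module k (Idm ρ) := inferInstanceAs (Module k (P × Y))

attribute [local instance] auxModule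

variable {ρ}

instance : Mul (Idm ρ) := ⟨fun a b => (a.1 * b.1, ρ a.1 b.2 + ρ b.1 a.2)⟩

instance : One (Idm ρ) := ⟨(1, 0)⟩

@[simp] theorem mul_fst (a b : Idm ρ) : (a * b).1 = a.1 * b.1 := rfl
@[simp] theorem mul_snd (a b : Idm ρ) : (a * b).2 = ρ a.1 b.2 + ρ b.1 a.2 := rfl
@[simp] theorem one_fst : (1 : Idm ρ).1 = 1 := rfl
@[simp] theorem one_snd : (1 : Idm ρ).2 = 0 := rfl
theorem add_fst (a b : Idm ρ) : (a + b).1 = a.1 + b.1 := rfl
theorem add_snd (a b : Idm ρ) : (a + b).2 = a.2 + b.2 := rfl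
@[simp] theorem zero_fst : (0 : Idm ρ).1 = 0 := rfl
@[simp] theorem zero_snd : (0 : Idm ρ).2 = 0 := rfl
@[simp] theorem smul_fst (c : k) (a : Idm ρ) : (c • a).1 = c • a.1 := rfl
@[simp] theorem smul_snd (c : k) (a : Idm ρ) : (c • a).2 = c • a.2 := rfl

@[ext] theorem ext' {a b : Idm ρ} (h1 : a.1 = b.1) (h2 : a.2 = b.2) : a = b := Prod.ext h1 h2

theorem ρmul (p p' : P) (y : Y) : ρ (p * p') y = ρ p (ρ p' y) := by rw [map_mul]; rfl

theorem ρcomm (p p' : P) (y : Y) : ρ p (ρ p' y) = ρ p' (ρ p y) := by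
  rw [← ρmul, ← ρmul, mul_comm]

instance : CommRing (Idm ρ) :=
  { (inferInstance : AddCommGroup (Idm ρ)) with
    mul := (· * ·)
    one := 1
    left_distrib := by
      intro a b c
      apply ext'
      · simp only [mul_fst, add_fst]; ring
      · simp only [mul_snd, add_fst, add_snd, map_add, LinearMap.add_apply]; abel
    right_distrib := by
      intro a b c
      apply ext'
      · simp only [mul_fst, add_fst]; ring
      · simp only [mul_snd, add_fst, add_snd, map_add, LinearMap.add_apply]; abel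
    zero_mul := by
      intro a
      apply ext' <;> simp
    mul_zero := by
      intro a
      apply ext' <;> simp
    mul_assoc := by
      intro a b c
      apply ext'
      · simp only [mul_fst]; ring
      · simp only [mul_fst, mul_snd, ρmul, map_add]
        rw [ρcomm c.1 a.1, ρcomm c.1 b.1]
        abel
    one_mul := by
      intro a
      apply ext' <;> simp
    mul_one := by
      intro a
      apply ext' <;> simp
    mul_comm := by
      intro a b
      apply ext'
      · simp only [mul_fst]; ring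
      · simp only [mul_snd]; abel }

instance : Algebra k (Idm ρ) :=
  Algebra.ofModule
    (by
      intro r x y
      apply ext'
      · simp only [mul_fst, smul_fst, smul_mul_assoc]
      · simp only [mul_snd, smul_fst, smul_snd, map_smul, smul_add, LinearMap.smul_apply])
    (by
      intro r x y
      apply ext'
      · simp only [mul_fst, smul_fst, mul_smul_comm]
      · simp only [mul_snd, smul_fst, smul_snd, map_smul, smul_add, LinearMap.smul_apply])

variable {P' Y' : Type u} [CommRing P'] [Algebra k P'] [AddCommGroup Y'] [Module k Y']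
  {ρ' : P' →ₐ[k] Module.End k Y'}

/-- functoriality -/
def map (f : P →ₐ[k] P') (g : Y →ₗ[k] Y') (h : ∀ p y, g (ρ p y) = ρ' (f p) (g y)) :
    Idm ρ →ₐ[k] Idm ρ' :=
  AlgHom.ofLinearMap
    { toFun := fun a => ((f a.1, g a.2) : P' × Y')
      map_add' := by
        intro a b
        apply ext'
        · exact map_add f _ _
        · exact map_add g _ _
      map_smul' := by
        intro c a
        apply ext'
        · exact map_smul f _ _
        · exact map_smul g _ _ }
    (by
      apply ext'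
      · exact map_one f
      · exact map_zero g)
    (by
      intro a b
      apply ext'
      · exact map_mul f _ _
      · show g (ρ a.1 b.2 + ρ b.1 a.2) = ρ' (f a.1) (g b.2) + ρ' (f b.1) (g a.2)
        rw [map_add, h, h])

@[simp] theorem map_fst (f : P →ₐ[k] P') (g : Y →ₗ[k] Y')
    (h : ∀ p y, g (ρ p y) = ρ' (f p) (g y)) (a : Idm ρ) : (map f g h a).1 = f a.1 := rfl

@[simp] theorem map_snd (f : P →ₐ[k] P') (g : Y →ₗ[k] Y')
    (h : ∀ p y, g (ρ p y) = ρ' (f p) (g y)) (a : Idm ρ) : (map f g h a).2 = g a.2 := rfl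

theorem map_surjective (f : P →ₐ[k] P') (g : Y →ₗ[k] Y')
    (h : ∀ p y, g (ρ p y) = ρ' (f p) (g y)) (hf : Function.Surjective f)
    (hg : Function.Surjective g) : Function.Surjective (map f g h) := by
  intro a
  obtain ⟨p, hp⟩ := hf a.1
  obtain ⟨y, hy⟩ := hg a.2
  exact ⟨((p, y) : P × Y), ext' hp hy⟩

theorem map_injective (f : P →ₐ[k] P') (g : Y →ₗ[k] Y')
    (h : ∀ p y, g (ρ p y) = ρ' (f p) (g y)) (hf : Function.Injective f)
    (hg : Function.Injective g) : Function.Injective (map f g h) := by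
  intro a b hab
  apply ext'
  · exact hf (congrArg (fun z : Idm ρ' => z.1) hab)
  · exact hg (congrArg (fun z : Idm ρ' => z.2) hab)

/-- the inclusion of the ring -/
def inl (ρ : P →ₐ[k] Module.End k Y) : P →ₐ[k] Idm ρ :=
  AlgHom.ofLinearMap
    { toFun := fun p => ((p, 0) : P × Y)
      map_add' := by
        intro a b
        apply ext'
        · rfl
        · exact (add_zero (0 : Y)).symm
      map_smul' := by
        intro c a
        apply ext'
        · rfl
        · exact (smul_zero c).symm }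
    rfl
    (by
      intro a b
      apply ext'
      · rfl
      · show (0 : Y) = ρ a 0 + ρ b 0
        rw [map_zero, map_zero, add_zero])

@[simp] theorem inl_fst (p : P) : (inl ρ p).1 = p := rfl
@[simp] theorem inl_snd (p : P) : (inl ρ p).2 = 0 := rfl

end Idm

end defn

section split

variable {k P Y Y₁ Y₂ : Type u} [Field k] [CommRing P] [Algebra k P] [AddCommGroup Y]
  [Module k Y] [AddCommGroup Y₁] [Module k Y₁] [AddCommGroup Y₂] [Module k Y₂]

/-- The product of two modules. -/
def prodE (ρ : P →ₐ[k] Module.End k Y₁) (ρ' : P →ₐ[k] Module.End k Y₂) :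
    P →ₐ[k] Module.End k (Y₁ × Y₂) :=
  AlgHom.ofLinearMap
    { toFun := fun p => (ρ p).prodMap (ρ' p)
      map_add' := by
        intro a b
        rw [map_add, map_add]
        rfl
      map_smul' := by
        intro c a
        rw [map_smul, map_smul]
        rfl }
    (by
      show (ρ 1).prodMap (ρ' 1) = 1
      rw [map_one, map_one]
      rfl)
    (by
      intro a b
      show (ρ (a * b)).prodMap (ρ' (a * b)) = (ρ a).prodMap (ρ' a) * (ρ b).prodMap (ρ' b)
      rw [map_mul, map_mul]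
      rfl)

@[simp] theorem prodE_apply (ρ : P →ₐ[k] Module.End k Y₁) (ρ' : P →ₐ[k] Module.End k Y₂) (p : P)
    (y : Y₁ × Y₂) : prodE ρ ρ' p y = (ρ p y.1, ρ' p y.2) := rfl

/-- The power of a module. -/
def powE (ρ : P →ₐ[k] Module.End k Y) (ι : Type) : P →ₐ[k] Module.End k (ι → Y) :=
  AlgHom.ofLinearMap
    { toFun := fun p => (ρ p).compLeft ι
      map_add' := by
        intro a b
        rw [map_add]
        rfl
      map_smul' := by
        intro c a
        rw [map_smul]
        rfl }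
    (by
      show (ρ 1).compLeft ι = 1
      rw [map_one]
      rfl)
    (by
      intro a b
      show (ρ (a * b)).compLeft ι = (ρ a).compLeft ι * (ρ b).compLeft ι
      rw [map_mul]
      rfl)

@[simp] theorem powE_apply (ρ : P →ₐ[k] Module.End k Y) (ι : Type) (p : P) (y : ι → Y) (i : ι) :
    powE ρ ι p y i = ρ p (y i) := rfl

/-- The data of a splitting: `Y₁ ⊆ Y` is a submodule with quotient `Y₂`. -/
structure SplitM (ρ : P →ₐ[k] Module.End k Y) (ρ₁ : P →ₐ[k] Module.End k Y₁)
    (ρ₂ : P →ₐ[k] Module.End k Y₂) where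
  /-- the inclusion -/
  j : Y₁ →ₗ[k] Y
  /-- the projection -/
  g : Y →ₗ[k] Y₂
  inj : Function.Injective j
  surj : Function.Surjective g
  comp : ∀ y, g (j y) = 0
  hj : ∀ p y, j (ρ₁ p y) = ρ p (j y)
  hg : ∀ p y, g (ρ p y) = ρ₂ p (g y)

theorem SplitM.dle (HD : T_DUAL k) {ρ : P →ₐ[k] Module.End k Y} {ρ₁ : P →ₐ[k] Module.End k Y₁}
    {ρ₂ : P →ₐ[k] Module.End k Y₂} (D : SplitM ρ ρ₁ ρ₂) {N : ℕ} (h : Dle k (Idm ρ) N) :
    Dle k (Idm (prodE ρ₁ ρ₂)) N := by
  obtain ⟨l, hl⟩ := D.j.exists_leftInverse_of_injective (LinearMap.ker_eq_bot.mpr D.inj)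
  have hlj : ∀ y, l (D.j y) = y := fun y => LinearMap.congr_fun hl y
  let S : Subalgebra k (DualNumber (Idm ρ)) :=
    { carrier := {z | ∃ y, D.j y = z.fst.2}
      mul_mem' := by
        rintro z w ⟨y, hy⟩ ⟨y', hy'⟩
        refine ⟨ρ₁ z.fst.1 y' + ρ₁ w.fst.1 y, ?_⟩
        rw [map_add, D.hj, D.hj, hy, hy', TrivSqZeroExt.fst_mul, Idm.mul_snd]
      add_mem' := by
        rintro z w ⟨y, hy⟩ ⟨y', hy'⟩
        exact ⟨y + y', by rw [map_add, hy, hy']; rfl⟩
      algebraMap_mem' := by
        intro r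
        refine ⟨0, ?_⟩
        rw [map_zero, Algebra.algebraMap_eq_smul_one, TrivSqZeroExt.fst_smul,
          TrivSqZeroExt.fst_one, Idm.smul_snd, Idm.one_snd, smul_zero] }
  have heps : (DualNumber.eps : DualNumber (Idm ρ)) ∈ S := by
    refine ⟨0, ?_⟩
    rw [map_zero, DualNumber.fst_eps]
    rfl
  let ψ0 : DualNumber (Idm ρ) →ₗ[k] Idm (prodE ρ₁ ρ₂) :=
    { toFun := fun z => ((z.fst.1, (l z.fst.2, D.g z.snd.2)) : P × (Y₁ × Y₂))
      map_add' := by
        intro z w
        apply Idm.ext'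
        · rfl
        · apply Prod.ext
          · exact map_add l _ _
          · exact map_add D.g _ _
      map_smul' := by
        intro c z
        apply Idm.ext'
        · rfl
        · apply Prod.ext
          · exact map_smul l _ _
          · exact map_smul D.g _ _ }
  have h1 : ∀ z, (ψ0 z).1 = z.fst.1 := fun _ => rfl
  have h2 : ∀ z, (ψ0 z).2 = (l z.fst.2, D.g z.snd.2) := fun _ => rfl
  let ψ : S →ₐ[k] Idm (prodE ρ₁ ρ₂) := AlgHom.ofLinearMap (ψ0.comp S.val.toLinearMap)
    (by
      apply Idm.ext'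
      · rfl
      · show (l 0, D.g 0) = 0
        rw [map_zero, map_zero]; rfl)
    (by
      rintro ⟨z, y, hy⟩ ⟨w, y', hy'⟩
      show ψ0 (z * w) = ψ0 z * ψ0 w
      have hz : l z.fst.2 = y := by rw [← hy, hlj]
      have hw : l w.fst.2 = y' := by rw [← hy', hlj]
      have hgz : D.g z.fst.2 = 0 := by rw [← hy, D.comp]
      have hgw : D.g w.fst.2 = 0 := by rw [← hy', D.comp]
      apply Idm.ext'
      · rfl
      · rw [Idm.mul_snd, h2, h2, h2, h1, h1]
        apply Prod.ext
        · show l (z * w).fst.2 = ρ₁ z.fst.1 (l w.fst.2) + ρ₁ w.fst.1 (l z.fst.2)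
          rw [hz, hw, TrivSqZeroExt.fst_mul, Idm.mul_snd, ← hy, ← hy', ← D.hj, ← D.hj, ← map_add,
            hlj]
        · show D.g (z * w).snd.2 = ρ₂ z.fst.1 (D.g w.snd.2) + ρ₂ w.fst.1 (D.g z.snd.2)
          have h3 : (z * w).snd = z.fst * w.snd + w.fst * z.snd := by
            rw [TrivSqZeroExt.snd_mul]
            simp [mul_comm]
          rw [h3, Idm.add_snd, Idm.mul_snd, Idm.mul_snd, map_add, map_add, map_add, D.hg, D.hg,
            D.hg, D.hg, hgz, hgw, map_zero, map_zero, add_zero, add_zero])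
  have hψ : ∀ z : S, ψ z = ψ0 z.1 := fun _ => rfl
  refine HD _ _ N h S heps ψ ?_ ?_
  · intro a
    obtain ⟨y, hy⟩ := D.surj a.2.2
    let x : Idm ρ := ((a.1, D.j a.2.1) : P × Y)
    let x' : Idm ρ := ((0, y) : P × Y)
    let z : DualNumber (Idm ρ) := TrivSqZeroExt.inl x + TrivSqZeroExt.inr x'
    have hz1 : z.fst = x := by
      rw [TrivSqZeroExt.fst_add, TrivSqZeroExt.fst_inl, TrivSqZeroExt.fst_inr, add_zero]
    have hz2 : z.snd = x' := by
      rw [TrivSqZeroExt.snd_add, TrivSqZeroExt.snd_inl, TrivSqZeroExt.snd_inr, zero_add]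
    refine ⟨⟨z, a.2.1, by rw [hz1]⟩, ?_⟩
    rw [hψ]
    show ψ0 z = a
    apply Idm.ext'
    · rw [h1, hz1]
    · rw [h2, hz1, hz2]
      apply Prod.ext
      · exact hlj _
      · exact hy
  · rw [hψ]
    apply Idm.ext'
    · rfl
    · rw [h2, DualNumber.fst_eps, DualNumber.snd_eps]
      show (l 0, D.g 0) = 0
      rw [map_zero, map_zero]
      rfl

end split

section le

variable {k P Y Y' Z Z' Y₁ Y₂ : Type u} [Field k] [CommRing P] [Algebra k P] [AddCommGroup Y]
  [Module k Y] [AddCommGroup Y'] [Module k Y'] [AddCommGroup Z] [Module k Z] [AddCommGroup Z']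
  [Module k Z'] [AddCommGroup Y₁] [Module k Y₁] [AddCommGroup Y₂] [Module k Y₂]

/-- The `P`-module `Y` may be exchanged for `Y'` as a summand in idealizations. -/
def LeM (ρ : P →ₐ[k] Module.End k Y) (ρ' : P →ₐ[k] Module.End k Y') : Prop :=
  ∀ (W : Type u) [AddCommGroup W] [Module k W] (w : P →ₐ[k] Module.End k W) (N : ℕ),
    Dle k (Idm (prodE ρ w)) N → Dle k (Idm (prodE ρ' w)) N

theorem LeM.refl (ρ : P →ₐ[k] Module.End k Y) : LeM ρ ρ := fun _ _ _ _ _ h => h

theorem LeM.trans {ρ : P →ₐ[k] Module.End k Y} {ρ' : P →ₐ[k] Module.End k Y'}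
    {σ : P →ₐ[k] Module.End k Z} (h : LeM ρ ρ') (h' : LeM ρ' σ) : LeM ρ σ :=
  fun W _ _ w N hN => h' W w N (h W w N hN)

theorem LeM.of_surjective {ρ : P →ₐ[k] Module.End k Y} {ρ' : P →ₐ[k] Module.End k Y'}
    (g : Y →ₗ[k] Y') (hg : Function.Surjective g) (h : ∀ p y, g (ρ p y) = ρ' p (g y)) :
    LeM ρ ρ' := by
  intro W _ _ w N hN
  refine hN.of_surjective (Idm.map (AlgHom.id k P) (g.prodMap LinearMap.id) ?_)
    (Idm.map_surjective _ _ _ Function.surjective_id ?_)
  · intro p y
    apply Prod.ext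
    · exact h p y.1
    · rfl
  · rintro ⟨y, z⟩
    obtain ⟨x, hx⟩ := hg y
    exact ⟨(x, z), by simp [hx]⟩

theorem LeM.of_injective {ρ : P →ₐ[k] Module.End k Y} {ρ' : P →ₐ[k] Module.End k Y'}
    (g : Y' →ₗ[k] Y) (hg : Function.Injective g) (h : ∀ p y, g (ρ' p y) = ρ p (g y)) :
    LeM ρ ρ' := by
  intro W _ _ w N hN
  refine hN.of_injective (Idm.map (AlgHom.id k P) (g.prodMap LinearMap.id) ?_)
    (Idm.map_injective _ _ _ Function.injective_id ?_)
  · intro p y
    apply Prod.ext
    · exact h p y.1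
    · rfl
  · rintro ⟨y, z⟩ ⟨y', z'⟩ hyz
    have h1 : g y = g y' := congrArg Prod.fst hyz
    have h2 : z = z' := congrArg Prod.snd hyz
    rw [hg h1, h2]

theorem SplitM.le (HD : T_DUAL k) {ρ : P →ₐ[k] Module.End k Y} {ρ₁ : P →ₐ[k] Module.End k Y₁}
    {ρ₂ : P →ₐ[k] Module.End k Y₂} (D : SplitM ρ ρ₁ ρ₂) : LeM ρ (prodE ρ₁ ρ₂) := by
  intro W _ _ w N hN
  let D' : SplitM (prodE ρ w) (prodE ρ₁ w) ρ₂ :=
    { j := D.j.prodMap LinearMap.id
      g := D.g.comp (LinearMap.fst k Y W)
      inj := by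
        rintro ⟨a, b⟩ ⟨a', b'⟩ hab
        have h1 : D.j a = D.j a' := congrArg Prod.fst hab
        have h2 : b = b' := congrArg Prod.snd hab
        rw [D.inj h1, h2]
      surj := by
        intro y
        obtain ⟨x, hx⟩ := D.surj y
        exact ⟨(x, 0), hx⟩
      comp := fun y => D.comp y.1
      hj := by
        intro p y
        apply Prod.ext
        · exact D.hj p y.1
        · rfl
      hg := fun p y => D.hg p y.1 }
  refine (D'.dle HD hN).of_surjective (Idm.map (AlgHom.id k P)
    (((LinearMap.fst k Y₁ W).comp (LinearMap.fst k (Y₁ × W) Y₂)).prod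
      (LinearMap.snd k (Y₁ × W) Y₂) |>.prod
        ((LinearMap.snd k Y₁ W).comp (LinearMap.fst k (Y₁ × W) Y₂))) ?_)
    (Idm.map_surjective _ _ _ Function.surjective_id ?_)
  · intro p y
    rfl
  · rintro ⟨⟨y₁, y₂⟩, z⟩
    exact ⟨((y₁, z), y₂), rfl⟩

theorem LeM.prod {ρ : P →ₐ[k] Module.End k Y} {ρ' : P →ₐ[k] Module.End k Y'}
    {σ : P →ₐ[k] Module.End k Z} {σ' : P →ₐ[k] Module.End k Z'}
    (h : LeM ρ ρ') (h' : LeM σ σ') : LeM (prodE ρ σ) (prodE ρ' σ') := by
  intro W _ _ w N hN
  have h1 : Dle k (Idm (prodE ρ (prodE σ w))) N := by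
    refine hN.of_surjective (Idm.map (AlgHom.id k P) (LinearEquiv.prodAssoc k Y Z W).toLinearMap
      ?_) (Idm.map_surjective _ _ _ Function.surjective_id (LinearEquiv.surjective _))
    intro p y
    rfl
  have h2 := h _ (prodE σ w) N h1
  have h3 : Dle k (Idm (prodE σ (prodE ρ' w))) N := by
    refine h2.of_surjective (Idm.map (AlgHom.id k P)
      (((LinearMap.fst k Z W).comp (LinearMap.snd k Y' (Z × W))).prod
        ((LinearMap.fst k Y' (Z × W)).prod
          ((LinearMap.snd k Z W).comp (LinearMap.snd k Y' (Z × W))))) ?_)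
      (Idm.map_surjective _ _ _ Function.surjective_id ?_)
    · intro p y
      rfl
    · rintro ⟨z, y, w⟩
      exact ⟨(y, z, w), rfl⟩
  have h4 := h' _ (prodE ρ' w) N h3
  refine h4.of_surjective (Idm.map (AlgHom.id k P)
      (((LinearMap.fst k Y' W).comp (LinearMap.snd k Z' (Y' × W))).prod
        (LinearMap.fst k Z' (Y' × W)) |>.prod
          ((LinearMap.snd k Y' W).comp (LinearMap.snd k Z' (Y' × W)))) ?_)
      (Idm.map_surjective _ _ _ Function.surjective_id ?_)
  · intro p y
    rfl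
  · rintro ⟨⟨y, z⟩, w⟩
    exact ⟨(z, y, w), rfl⟩

/-- Exchange without further summand. -/
theorem LeM.dle {ρ : P →ₐ[k] Module.End k Y} {ρ' : P →ₐ[k] Module.End k Y'} (h : LeM ρ ρ')
    {N : ℕ} (hN : Dle k (Idm ρ) N) : Dle k (Idm ρ') N := by
  have h1 : Dle k (Idm (prodE ρ (powE ρ (Fin 0)))) N := by
    refine hN.of_surjective (Idm.map (AlgHom.id k P) (LinearMap.id.prod 0) ?_)
      (Idm.map_surjective _ _ _ Function.surjective_id ?_)
    · intro p y
      exact Prod.ext rfl (Subsingleton.elim _ _)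
    · rintro ⟨y, f⟩
      exact ⟨y, Prod.ext rfl (Subsingleton.elim _ _)⟩
  have h2 := h _ _ N h1
  refine h2.of_surjective (Idm.map (AlgHom.id k P) (LinearMap.fst k Y' (Fin 0 → Y)) ?_)
      (Idm.map_surjective _ _ _ Function.surjective_id ?_)
  · intro p y
    rfl
  · intro y
    exact ⟨(y, 0), rfl⟩

/-- Two powers of a module give the power of the sum. -/
theorem leM_powE_add (ρ : P →ₐ[k] Module.End k Y) (a b : ℕ) :
    LeM (prodE (powE ρ (Fin a)) (powE ρ (Fin b))) (powE ρ (Fin (a + b))) := by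
  refine LeM.of_surjective
    { toFun := fun f => Fin.append f.1 f.2
      map_add' := ?_
      map_smul' := ?_ } ?_ ?_
  · intro f g
    funext i
    refine Fin.addCases (fun i => ?_) (fun i => ?_) i
    · simp only [Fin.append_left, Pi.add_apply, Prod.fst_add]
    · simp only [Fin.append_right, Pi.add_apply, Prod.snd_add]
  · intro c f
    funext i
    refine Fin.addCases (fun i => ?_) (fun i => ?_) i
    · simp only [Fin.append_left, Pi.smul_apply, Prod.smul_fst, RingHom.id_apply]
    · simp only [Fin.append_right, Pi.smul_apply, Prod.smul_snd, RingHom.id_apply]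
  · intro f
    refine ⟨(fun i => f (Fin.castAdd b i), fun i => f (Fin.natAdd a i)), ?_⟩
    exact Fin.append_castAdd_natAdd
  · intro p f
    funext i
    refine Fin.addCases (fun i => ?_) (fun i => ?_) i
    · show Fin.append (powE ρ (Fin a) p f.1) (powE ρ (Fin b) p f.2) (Fin.castAdd b i) =
        ρ p (Fin.append f.1 f.2 (Fin.castAdd b i))
      rw [Fin.append_left, Fin.append_left]
      rfl
    · show Fin.append (powE ρ (Fin a) p f.1) (powE ρ (Fin b) p f.2) (Fin.natAdd a i) =
        ρ p (Fin.append f.1 f.2 (Fin.natAdd a i))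
      rw [Fin.append_right, Fin.append_right]
      rfl

/-- Dropping copies. -/
theorem leM_powE_mono (ρ : P →ₐ[k] Module.End k Y) {a b : ℕ} (h : b ≤ a) :
    LeM (powE ρ (Fin a)) (powE ρ (Fin b)) := by
  refine LeM.of_surjective (LinearMap.funLeft k Y (Fin.castLE h)) ?_ (fun _ _ => rfl)
  exact LinearMap.funLeft_surjective_of_injective k Y _ (Fin.castLE_injective h)

end le

end Pool.Agent.H62.BC
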