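import Pool.Agent.H62.BC.Uni
import Mathlib.LinearAlgebra.Eigenspace.Zero

/-!
# Uniform version, for modules: local algebras, all algebras
-/

open TensorProduct Module

namespace Pool.Agent.H62.BC

open Pool.Agent.H12.Defect Pool.Agent.H15.Defect Pool.Agent.H15.CX Pool.Agent.H2.WG
open Pool.Agent.H15.ER
open Pool.Agent.H14.RF hiding tr

universe u

section aux

variable {k A A' E : Type u} [Field k] [CommRing A] [Algebra k A] [CommRing A'] [Algebra k A']
  [AddCommGroup E] [Module k E]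

theorem pow_finrank_eq_zero [Module.Finite k A] {x : A} (hx : IsNilpotent x) :
    x ^ (finrank k A) = 0 := by
  have h1 : IsNilpotent (Algebra.lmul k A x) := hx.map (Algebra.lmul k A)
  have h2 := LinearMap.aeval_self_charpoly (Algebra.lmul k A x)
  rw [(LinearMap.isNilpotent_iff_charpoly _).mp h1, map_pow, Polynomial.aeval_X,
    ← map_pow] at h2
  have := LinearMap.congr_fun h2 1
  simpa using this

theorem exists_gens [Module.Finite k A] (α : A →ₐ[k] k) (c : ℕ) (hc : RingHom.ker α ^ c = ⊥) :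
    ∃ l : List A, l.length = finrank k A ∧ (∀ x ∈ l, x ^ (finrank k A + 1) = 0) ∧
      ∀ S : Subalgebra k A, (∀ x ∈ l, x ∈ S) → S = ⊤ := by
  let b := Module.finBasis k A
  let f : Fin (finrank k A) → A := fun i => b i - algebraMap k A (α (b i))
  have hf : ∀ i, IsNilpotent (f i) := by
    intro i
    have h1 : f i ∈ RingHom.ker α := by
      rw [RingHom.mem_ker]
      show α (b i - algebraMap k A (α (b i))) = 0
      rw [map_sub, AlgHom.commutes]
      exact sub_self _
    have h2 : f i ^ c ∈ RingHom.ker α ^ c := Ideal.pow_mem_pow h1 c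
    rw [hc, Ideal.mem_bot] at h2
    exact ⟨c, h2⟩
  refine ⟨List.ofFn f, by simp, ?_, ?_⟩
  · intro x hx
    obtain ⟨i, rfl⟩ := (List.mem_ofFn' f x).mp hx
    rw [pow_succ, pow_finrank_eq_zero (hf i), zero_mul]
  · intro S hS
    rw [eq_top_iff]
    intro a _
    rw [← b.sum_repr a]
    refine sum_mem fun i _ => S.smul_mem ?_ _
    have h1 : f i ∈ S := hS _ ((List.mem_ofFn' f _).mpr ⟨i, rfl⟩)
    have h2 := S.add_mem h1 (S.algebraMap_mem (α (b i)))
    have h3 : f i + algebraMap k A (α (b i)) = b i := sub_add_cancel _ _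
    rwa [h3] at h2

/-- the projection -/
def Idm.prj {P : Type u} [CommRing P] [Algebra k P] (ρ : P →ₐ[k] Module.End k E) :
    Idm ρ →ₐ[k] P :=
  AlgHom.ofLinearMap
    { toFun := fun z => z.1
      map_add' := fun _ _ => rfl
      map_smul' := fun _ _ => rfl } rfl (fun _ _ => rfl)

theorem dle_glue (ρ : A →ₐ[k] Module.End k E) (π : A →ₐ[k] A') (ρ' : A' →ₐ[k] Module.End k E)
    (hρ : ∀ a, ρ' (π a) = ρ a) {D N : ℕ} (ι : Type) (hD : Dle k A D)
    (hN : Dle k (Idm (powE ρ' ι)) N) : Dle k (Idm (powE ρ ι)) (D + N) := by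
  let f : Idm (powE ρ ι) →ₐ[k] Idm (powE ρ' ι) := Idm.map π LinearMap.id (by
    intro p y
    funext i
    show ρ p (y i) = ρ' (π p) (y i)
    rw [hρ])
  have hf : ∀ x, (f x).2 = x.2 := fun _ => rfl
  refine (hD.prod hN).of_injective (AlgHom.prod (Idm.prj _) f) ?_
  intro x y hxy
  have h0 : ((Idm.prj _ x, f x) : A × Idm (powE ρ' ι)) = (Idm.prj _ y, f y) := hxy
  have h1 : x.1 = y.1 := (Prod.ext_iff.mp h0).1
  have h2 : f x = f y := (Prod.ext_iff.mp h0).2
  refine Idm.ext' h1 ?_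
  rw [← hf x, ← hf y, h2]

end aux

theorem faith_u (h : T_P1u.{u}) (k : Type u) [Field k] [IsAlgClosed k] (d m : ℕ) :
    ∃ C : ℕ, ∀ (A A' E : Type u) [CommRing A] [Algebra k A] [Module.Finite k A] [CommRing A']
      [Algebra k A'] [AddCommGroup E] [Module k E] [Module.Finite k E] (α : A →ₐ[k] k) (c : ℕ)
      (_ : RingHom.ker α ^ c = ⊥) (π : A →ₐ[k] A') (ρ' : A' →ₐ[k] Module.End k E),
      Function.Surjective π → Function.Injective ρ' → finrank k A = d → finrank k E = m →
      ∀ b : ℕ, Dle k (Idm (powE ρ' (Fin b))) (b * m + C) := by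
  obtain ⟨C, hC⟩ := gen_u h k d m d
  refine ⟨C, ?_⟩
  intro A A' E _ _ _ _ _ _ _ _ α c hc π ρ' hπ hρ hd hm b
  subst hd
  obtain ⟨l, hl1, hl2, hl3⟩ := exists_gens α c hc
  obtain ⟨P, iP, aP, q, hq, hBC⟩ := hC A' E ρ' hρ hm (l.map π) (by simpa using hl1) (by
    intro x hx
    obtain ⟨y, hy, rfl⟩ := List.mem_map.mp hx
    rw [← map_pow, hl2 y hy, map_zero])
  have hsur : Function.Surjective q := by
    have h1 : q.range.comap π = ⊤ := by
      refine hl3 _ fun x hx => ?_
      exact hq _ (List.mem_map.mpr ⟨x, hx, rfl⟩)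
    intro a
    obtain ⟨a, rfl⟩ := hπ a
    have h2 : a ∈ q.range.comap π := by rw [h1]; trivial
    exact h2
  have h3 := hBC b
  rw [hm] at h3
  exact h3.of_surjective (Idm.map q LinearMap.id (fun p y => rfl))
    (Idm.map_surjective _ _ _ hsur Function.surjective_id)

theorem loc_u (h : T_P1u.{u}) (k : Type u) [Field k] [IsAlgClosed k] (d m : ℕ) :
    ∃ C : ℕ, ∀ (A E : Type u) [CommRing A] [Algebra k A] [Module.Finite k A] [AddCommGroup E]
      [Module k E] [Module.Finite k E] (α : A →ₐ[k] k) (c : ℕ) (_ : RingHom.ker α ^ c = ⊥)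
      (ρ : A →ₐ[k] Module.End k E), finrank k A = d → finrank k E = m →
      ∀ b : ℕ, Dle k (Idm (powE ρ (Fin b))) (b * m + C) := by
  obtain ⟨C, hC⟩ := faith_u h k d m
  obtain ⟨D, hD⟩ := faith_u h k d d
  refine ⟨D + C, ?_⟩
  intro A E _ _ _ _ _ _ α c hc ρ hd hm b
  have hDA : Dle k A D := by
    have h1 := hD A A A α c hc (AlgHom.id k A) (Algebra.lmul k A) Function.surjective_id (by
      intro x y hxy
      have := LinearMap.congr_fun hxy 1
      simpa using this) hd hd 0
    rw [zero_mul, zero_add] at h1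
    refine h1.of_surjective (Idm.prj _) ?_
    intro a
    exact ⟨((a, 0) : A × (Fin 0 → A)), rfl⟩
  let I : Ideal A := RingHom.ker ρ
  let π : A →ₐ[k] A ⧸ I := Ideal.Quotient.mkₐ k I
  let ρ' : A ⧸ I →ₐ[k] Module.End k E := Ideal.Quotient.liftₐ I ρ (fun a ha => ha)
  have hρ : ∀ a, ρ' (π a) = ρ a := fun _ => rfl
  have hinj : Function.Injective ρ' := by
    rw [injective_iff_map_eq_zero]
    intro a ha
    obtain ⟨a, rfl⟩ := Ideal.Quotient.mk_surjective a
    exact Ideal.Quotient.eq_zero_iff_mem.mpr ha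
  have h2 := dle_glue ρ π ρ' hρ (Fin b) hDA
    (hC A (A ⧸ I) E α c hc π ρ' Ideal.Quotient.mk_surjective hinj hd hm b)
  have h3 : D + (b * m + C) = b * m + (D + C) := by ring
  rwa [h3] at h2

section split

variable {k A₁ A₂ E : Type u} [Field k] [CommRing A₁] [Algebra k A₁] [CommRing A₂] [Algebra k A₂]
  [AddCommGroup E] [Module k E]

/-- the first part -/
def V1 (ρ : A₁ × A₂ →ₐ[k] Module.End k E) : Submodule k E := LinearMap.range (ρ (1, 0))

/-- the second part -/
def V2 (ρ : A₁ × A₂ →ₐ[k] Module.End k E) : Submodule k E := LinearMap.range (ρ (0, 1))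

variable (ρ : A₁ × A₂ →ₐ[k] Module.End k E)

theorem mem_V1 {y : E} : y ∈ V1 ρ ↔ ρ (1, 0) y = y := by
  constructor
  · rintro ⟨x, rfl⟩
    rw [← Idm.ρmul]
    congr 2
    simp
  · intro h
    exact ⟨y, h⟩

theorem mem_V2 {y : E} : y ∈ V2 ρ ↔ ρ (0, 1) y = y := by
  constructor
  · rintro ⟨x, rfl⟩
    rw [← Idm.ρmul]
    congr 2
    simp
  · intro h
    exact ⟨y, h⟩

theorem V1_stable (a : A₁ × A₂) {y : E} (hy : y ∈ V1 ρ) : ρ a y ∈ V1 ρ := by
  rw [mem_V1] at hy ⊢
  rw [Idm.ρcomm, hy]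

theorem V2_stable (a : A₁ × A₂) {y : E} (hy : y ∈ V2 ρ) : ρ a y ∈ V2 ρ := by
  rw [mem_V2] at hy ⊢
  rw [Idm.ρcomm, hy]

/-- the first module -/
def rho1 : A₁ →ₐ[k] Module.End k (V1 ρ) :=
  AlgHom.ofLinearMap
    { toFun := fun a => (ρ (a, 0)).restrict (fun _ hy => V1_stable ρ _ hy)
      map_add' := by
        intro a b
        ext y
        show ρ (a + b, 0) y = ρ (a, 0) y + ρ (b, 0) y
        rw [← LinearMap.add_apply, ← map_add]
        simp
      map_smul' := by
        intro c a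
        ext y
        show ρ (c • a, 0) y = c • ρ (a, 0) y
        rw [← LinearMap.smul_apply, ← map_smul]
        simp }
    (by
      ext y
      exact (mem_V1 ρ).mp y.2)
    (by
      intro a b
      ext y
      show ρ (a * b, 0) y = ρ (a, 0) (ρ (b, 0) y)
      rw [← Idm.ρmul]
      simp)

/-- the second module -/
def rho2 : A₂ →ₐ[k] Module.End k (V2 ρ) :=
  AlgHom.ofLinearMap
    { toFun := fun a => (ρ (0, a)).restrict (fun _ hy => V2_stable ρ _ hy)
      map_add' := by
        intro a b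
        ext y
        show ρ (0, a + b) y = ρ (0, a) y + ρ (0, b) y
        rw [← LinearMap.add_apply, ← map_add]
        simp
      map_smul' := by
        intro c a
        ext y
        show ρ (0, c • a) y = c • ρ (0, a) y
        rw [← LinearMap.smul_apply, ← map_smul]
        simp }
    (by
      ext y
      exact (mem_V2 ρ).mp y.2)
    (by
      intro a b
      ext y
      show ρ (0, a * b) y = ρ (0, a) (ρ (0, b) y)
      rw [← Idm.ρmul]
      simp)

theorem rho1_apply (a : A₁) (y : V1 ρ) : ((rho1 ρ a y : V1 ρ) : E) = ρ (a, 0) y := rfl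

theorem rho2_apply (a : A₂) (y : V2 ρ) : ((rho2 ρ a y : V2 ρ) : E) = ρ (0, a) y := rfl

theorem act_V1 (a : A₁ × A₂) {y : E} (hy : y ∈ V1 ρ) : ρ a y = ρ (a.1, 0) y := by
  rw [mem_V1] at hy
  conv_lhs => rw [← hy, ← Idm.ρmul]
  congr 2
  simp [Prod.ext_iff]

theorem act_V2 (a : A₁ × A₂) {y : E} (hy : y ∈ V2 ρ) : ρ a y = ρ (0, a.2) y := by
  rw [mem_V2] at hy
  conv_lhs => rw [← hy, ← Idm.ρmul]
  congr 2
  simp [Prod.ext_iff]

/-- the sum map -/
def sumE (ι : Type) : (ι → V1 ρ) × (ι → V2 ρ) →ₗ[k] (ι → E) :=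
  ((V1 ρ).subtype.compLeft ι).coprod ((V2 ρ).subtype.compLeft ι)

theorem sumE_apply (ι : Type) (f : (ι → V1 ρ) × (ι → V2 ρ)) (i : ι) :
    sumE ρ ι f i = (f.1 i : E) + (f.2 i : E) := rfl

/-- the comparison map -/
def toSum (ι : Type) : Idm (powE (rho1 ρ) ι) × Idm (powE (rho2 ρ) ι) →ₐ[k] Idm (powE ρ ι) :=
  AlgHom.ofLinearMap
    { toFun := fun z => (((z.1.1, z.2.1), sumE ρ ι (z.1.2, z.2.2)) : (A₁ × A₂) × (ι → E))
      map_add' := by
        intro x y
        apply Idm.ext'
        · rfl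
        · exact map_add (sumE ρ ι) (x.1.2, x.2.2) (y.1.2, y.2.2)
      map_smul' := by
        intro c x
        apply Idm.ext'
        · rfl
        · exact map_smul (sumE ρ ι) c (x.1.2, x.2.2) }
    (by
      apply Idm.ext'
      · rfl
      · exact map_zero (sumE ρ ι))
    (by
      intro x y
      apply Idm.ext'
      · rfl
      · funext i
        show ((rho1 ρ x.1.1 (y.1.2 i) + rho1 ρ y.1.1 (x.1.2 i) : V1 ρ) : E) +
          ((rho2 ρ x.2.1 (y.2.2 i) + rho2 ρ y.2.1 (x.2.2 i) : V2 ρ) : E) =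
          ρ (x.1.1, x.2.1) ((y.1.2 i : E) + (y.2.2 i : E)) +
          ρ (y.1.1, y.2.1) ((x.1.2 i : E) + (x.2.2 i : E))
        rw [Submodule.coe_add, Submodule.coe_add, rho1_apply, rho1_apply, rho2_apply, rho2_apply,
          map_add, map_add, act_V1 ρ (x.1.1, x.2.1) (y.1.2 i).2,
          act_V2 ρ (x.1.1, x.2.1) (y.2.2 i).2, act_V1 ρ (y.1.1, y.2.1) (x.1.2 i).2,
          act_V2 ρ (y.1.1, y.2.1) (x.2.2 i).2]
        abel)

theorem toSum_surjective (ι : Type) : Function.Surjective (toSum ρ ι) := by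
  intro z
  have h1 : ∀ y : E, ρ (1, 0) y ∈ V1 ρ := fun y => ⟨y, rfl⟩
  have h2 : ∀ y : E, ρ (0, 1) y ∈ V2 ρ := fun y => ⟨y, rfl⟩
  let f1 : ι → V1 ρ := fun i => ⟨ρ (1, 0) (z.2 i), h1 _⟩
  let f2 : ι → V2 ρ := fun i => ⟨ρ (0, 1) (z.2 i), h2 _⟩
  refine ⟨(((z.1.1, f1) : A₁ × (ι → V1 ρ)), ((z.1.2, f2) : A₂ × (ι → V2 ρ))), ?_⟩
  apply Idm.ext'
  · rfl
  · funext i
    show ρ (1, 0) (z.2 i) + ρ (0, 1) (z.2 i) = z.2 i
    rw [← LinearMap.add_apply, ← map_add]
    have h3 : ((1, 0) + (0, 1) : A₁ × A₂) = 1 := by simp [Prod.ext_iff]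
    rw [h3, map_one]
    rfl

theorem finrank_V1_V2 [Module.Finite k E] : finrank k (V1 ρ) + finrank k (V2 ρ) = finrank k E := by
  have h1 : V2 ρ = LinearMap.ker (ρ (1, 0)) := by
    ext y
    rw [mem_V2, LinearMap.mem_ker]
    have h3 : ((1, 0) + (0, 1) : A₁ × A₂) = 1 := by simp [Prod.ext_iff]
    have h4 : ρ (1, 0) y + ρ (0, 1) y = y := by
      rw [← LinearMap.add_apply, ← map_add, h3, map_one]
      rfl
    constructor
    · intro h
      rw [h] at h4
      exact add_eq_right.mp h4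
    · intro h
      rwa [h, zero_add] at h4
  rw [h1]
  exact LinearMap.finrank_range_add_finrank_ker _

end split

/-- Uniform bounded catalysis, for modules. -/
def T_BCu : Prop :=
  ∀ (k : Type u) [Field k] [IsAlgClosed k] (d m : ℕ), ∃ C : ℕ,
    ∀ (A E : Type u) [CommRing A] [Algebra k A] [Module.Finite k A] [AddCommGroup E] [Module k E]
      [Module.Finite k E] (ρ : A →ₐ[k] Module.End k E), finrank k A = d → finrank k E = m →
      ∀ b : ℕ, Dle k (Idm (powE ρ (Fin b))) (b * m + C)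

theorem pf_BCu (h : T_P1u.{u}) : T_BCu.{u} := by
  intro k _ _ d
  induction d using Nat.strong_induction_on with
  | _ d ih =>
    intro m
    have ih' : ∀ p : Fin d × Fin (m + 1), ∃ C : ℕ,
      ∀ (A E : Type u) [CommRing A] [Algebra k A] [Module.Finite k A] [AddCommGroup E]
        [Module k E] [Module.Finite k E] (ρ : A →ₐ[k] Module.End k E),
        finrank k A = p.1 → finrank k E = p.2 →
        ∀ b : ℕ, Dle k (Idm (powE ρ (Fin b))) (b * p.2 + C) :=
      fun p => ih p.1 p.1.2 p.2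
    choose F hF using ih'
    obtain ⟨C, hC⟩ := loc_u h k d m
    refine ⟨C + ∑ p, F p + ∑ p, F p + 1, ?_⟩
    intro A E _ _ _ _ _ _ ρ hd hm b
    rcases subsingleton_or_nontrivial A with hA | hA
    · have h1 : Dle k k 1 := by
        have := dle_ZZ k 0
        refine this.of_surjective (TrivSqZeroExt.fstHom k k (Fin 0 → k)) ?_
        intro c
        exact ⟨TrivSqZeroExt.inl c, rfl⟩
      have h2 : Subsingleton E := by
        refine ⟨fun x y => ?_⟩
        have h3 : ∀ z : E, z = 0 := by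
          intro z
          have h4 : ρ 1 z = ρ 0 z := by rw [Subsingleton.elim (1 : A) 0]
          rw [map_one, map_zero] at h4
          exact h4
        rw [h3 x, h3 y]
      have h5 : Subsingleton (Idm (powE ρ (Fin b))) :=
        ⟨fun x y => Idm.ext' (Subsingleton.elim _ _) (Subsingleton.elim _ _)⟩
      refine (h1.of_surjective (Algebra.ofId k _) ?_).mono (by omega)
      intro x
      exact ⟨0, Subsingleton.elim _ _⟩
    obtain ⟨α⟩ := exists_point (k := k) (A := A)
    rcases local_or_split α with ⟨c, hc⟩ | ⟨A₁, A₂, _, _, _, _, _, _, _, _, ⟨e⟩⟩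
    · exact (hC A E α c hc ρ hd hm b).mono (by omega)
    · have hfr : finrank k A = finrank k A₁ + finrank k A₂ := by
        rw [← Module.finrank_prod]
        exact LinearEquiv.finrank_eq e.toLinearEquiv
      have hp1 := Module.finrank_pos (R := k) (M := A₁)
      have hp2 := Module.finrank_pos (R := k) (M := A₂)
      let ρ' : A₁ × A₂ →ₐ[k] Module.End k E := ρ.comp e.symm.toAlgHom
      have hV := finrank_V1_V2 ρ'
      have h1 := hF (⟨finrank k A₁, by omega⟩, ⟨finrank k (V1 ρ'), by omega⟩) A₁ (V1 ρ')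
        (rho1 ρ') rfl rfl b
      have h2 := hF (⟨finrank k A₂, by omega⟩, ⟨finrank k (V2 ρ'), by omega⟩) A₂ (V2 ρ')
        (rho2 ρ') rfl rfl b
      have h3 := (h1.prod h2).of_surjective _ (toSum_surjective ρ' (Fin b))
      have h4 : Dle k (Idm (powE ρ (Fin b))) _ := h3.of_surjective
        (Idm.map e.symm.toAlgHom LinearMap.id (fun p y => rfl))
        (Idm.map_surjective _ _ _ e.symm.surjective Function.surjective_id)
      refine h4.mono ?_
      have h5 := Finset.single_le_sum (f := F) (fun p _ => Nat.zero_le _) (Finset.mem_univ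
        ((⟨finrank k A₁, by omega⟩, ⟨finrank k (V1 ρ'), by omega⟩) : Fin d × Fin (m + 1)))
      have h6 := Finset.single_le_sum (f := F) (fun p _ => Nat.zero_le _) (Finset.mem_univ
        ((⟨finrank k A₂, by omega⟩, ⟨finrank k (V2 ρ'), by omega⟩) : Fin d × Fin (m + 1)))
      have h7 : b * m = b * finrank k (V1 ρ') + b * finrank k (V2 ρ') := by
        rw [← hm, ← hV, mul_add]
      rw [h7]
      show b * finrank k (V1 ρ') + _ + (b * finrank k (V2 ρ') + _) ≤ _
      omega

end Pool.Agent.H62.BC
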