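import Pool.Agent.H62.BC.STC

/-!
# A cover of the stack
-/

open TensorProduct Module

namespace Pool.Agent.H62.BC

open Pool.Agent.H15.Defect Pool.Agent.H15.CX Pool.Agent.H2.WG

universe u

section stb

variable {k P V : Type u} [Field k] [CommRing P] [Algebra k P] [AddCommGroup V] [Module k V]

/-- the inclusion of `P` -/
noncomputable def inP (k P : Type u) [Field k] [CommRing P] [Algebra k P] (L : ℕ) :
    P →ₐ[k] PT k P L := (Algebra.TensorProduct.includeLeft : P →ₐ[k] P ⊗[k] Tr k L)

/-- the inclusion of `k[z]/(z^(L+1))` -/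
noncomputable def inT (k P : Type u) [Field k] [CommRing P] [Algebra k P] (L : ℕ) :
    Tr k L →ₐ[k] PT k P L := (Algebra.TensorProduct.includeRight : Tr k L →ₐ[k] P ⊗[k] Tr k L)

theorem inP_apply (L : ℕ) (p : P) : inP k P L p = pt p 1 := rfl

theorem inT_apply (L : ℕ) (s : Tr k L) : inT k P L s = pt 1 s := rfl

theorem pt_mul {L : ℕ} (p p' : P) (s s' : Tr k L) :
    (pt p s : PT k P L) * pt p' s' = pt (p * p') (s * s') :=
  Algebra.TensorProduct.tmul_mul_tmul p p' s s'

theorem stk_single (a : ℕ → Module.End k V) (n : ℕ) (j : Fin n) (v : V) :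
    stk a n (Pi.single j v) = Pi.single j (a j v) +
      (if h : (j : ℕ) + 1 < n then Pi.single (⟨(j : ℕ) + 1, h⟩ : Fin n) v else 0) := by
  funext i
  rw [stk_apply, Pi.add_apply]
  congr 1
  · by_cases h : i = j
    · subst h
      rw [Pi.single_eq_same, Pi.single_eq_same]
    · rw [Pi.single_eq_of_ne h, Pi.single_eq_of_ne h, map_zero]
  · by_cases h : (i : ℕ) = 0
    · rw [dif_pos h]
      split_ifs with h2
      · rw [Pi.single_eq_of_ne]
        intro h3
        have := congrArg Fin.val h3
        simp at this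
        omega
      · rfl
    · rw [dif_neg h]
      split_ifs with h2
      · by_cases h3 : (i : ℕ) = (j : ℕ) + 1
        · have h4 : (⟨(i : ℕ) - 1, by omega⟩ : Fin n) = j := by
            apply Fin.ext
            simp only
            omega
          have h5 : (⟨(j : ℕ) + 1, h2⟩ : Fin n) = i := Fin.ext h3.symm
          rw [h4, h5, Pi.single_eq_same, Pi.single_eq_same]
        · rw [Pi.single_eq_of_ne, Pi.single_eq_of_ne]
          · intro h4
            exact h3 (congrArg Fin.val h4)
          · intro h4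
            have := congrArg Fin.val h4
            simp only at this
            omega
      · rw [Pi.single_eq_of_ne]
        · rfl
        · intro h4
          have := congrArg Fin.val h4
          simp only at this
          have h6 := i.2
          omega

theorem pf_STB : T_STB.{u} := by
  intro k P V _ _ _ _ _ ρ a L hZ hc N hca hN
  set α : PT k P L →ₐ[k] Module.End k (Fin (L + 1) → V) :=
    act (powE ρ (Fin (L + 1))) L (stk a (L + 1)) hZ hc with hα
  have hαp : ∀ (p : P) (s : Tr k L) (y : Fin (L + 1) → V),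
      α (pt p s) y = powE ρ (Fin (L + 1)) p (trA L (stk a (L + 1)) hZ s y) := fun _ _ _ => rfl
  let f1 : Idm ρ →ₐ[k] Idm α := Idm.map (inP k P L) (LinearMap.single k (fun _ => V) 0) (by
    intro p y
    rw [inP_apply, hαp, map_one]
    show Pi.single 0 (ρ p y) = powE ρ (Fin (L + 1)) p (Pi.single 0 y)
    funext i
    rw [powE_apply]
    by_cases h : i = 0
    · subst h
      rw [Pi.single_eq_same, Pi.single_eq_same]
    · rw [Pi.single_eq_of_ne h, Pi.single_eq_of_ne h, map_zero])
  let f2 : Tr k L →ₐ[k] Idm α := (Idm.inl α).comp (inT k P L)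
  let F : Idm ρ ⊗[k] Tr k L →ₐ[k] Idm α := Algebra.TensorProduct.productMap f1 f2
  have hF : ∀ x s, F (x ⊗ₜ[k] s) = f1 x * f2 s := fun _ _ => rfl
  have hl : ∀ r : PT k P L, Idm.inl α r ∈ F.range := by
    intro r
    induction r using PT.induction with
    | zero => rw [map_zero]; exact zero_mem _
    | add r s hr hs => rw [map_add]; exact add_mem hr hs
    | tmul p s =>
      refine ⟨(Idm.inl ρ p) ⊗ₜ[k] s, ?_⟩
      show F ((Idm.inl ρ p) ⊗ₜ[k] s) = _
      rw [hF]
      apply Idm.ext'
      · show pt p 1 * pt 1 s = pt p s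
        rw [pt_mul, mul_one, one_mul]
      · rw [Idm.mul_snd]
        show α _ 0 + α _ (LinearMap.single k (fun _ => V) 0 0) = 0
        rw [map_zero, map_zero, map_zero, add_zero]
  let inr : (Fin (L + 1) → V) →ₗ[k] Idm α :=
    { toFun := fun y => ((0, y) : PT k P L × (Fin (L + 1) → V))
      map_add' := by
        intro x y
        apply Idm.ext'
        · exact (add_zero _).symm
        · rfl
      map_smul' := by
        intro c y
        apply Idm.ext'
        · exact (smul_zero c).symm
        · rfl }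
  let S : Submodule k (Fin (L + 1) → V) := F.range.toSubmodule.comap inr
  have hS : ∀ y, y ∈ S ↔ inr y ∈ F.range := fun y => Iff.rfl
  have hSZ : ∀ y ∈ S, stk a (L + 1) y ∈ S := by
    intro y hy
    rw [hS] at hy ⊢
    have h1 : inr (stk a (L + 1) y) = Idm.inl α (pt 1 (tr k L)) * inr y := by
      apply Idm.ext'
      · show (0 : PT k P L) = _ * 0
        rw [mul_zero]
      · rw [Idm.mul_snd]
        show stk a (L + 1) y = α (pt 1 (tr k L)) y + α 0 0
        rw [hαp, map_one, trA_tr]
        have h0 : α (0 : PT k P L) 0 = 0 := map_zero _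
        show stk a (L + 1) y = stk a (L + 1) y + α 0 0
        rw [h0, add_zero]
    rw [h1]
    exact mul_mem (hl _) hy
  have hS0 : ∀ v, (Pi.single 0 v : Fin (L + 1) → V) ∈ S := by
    intro v
    rw [hS]
    let x : Idm ρ := ((0, v) : P × V)
    refine ⟨x ⊗ₜ[k] (1 : Tr k L), ?_⟩
    show F (x ⊗ₜ[k] (1 : Tr k L)) = _
    rw [hF, map_one, mul_one]
    apply Idm.ext'
    · exact map_zero (inP k P L)
    · rfl
  have hSj : ∀ (j : ℕ) (hj : j < L + 1) (v : V), (Pi.single ⟨j, hj⟩ v : Fin (L + 1) → V) ∈ S := by
    intro j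
    induction j with
    | zero => intro hj v; exact hS0 v
    | succ j ih =>
      intro hj v
      have h1 := stk_single a (L + 1) ⟨j, by omega⟩ v
      rw [dif_pos (show ((⟨j, by omega⟩ : Fin (L + 1)) : ℕ) + 1 < L + 1 from hj)] at h1
      have h2 : (Pi.single ⟨j + 1, hj⟩ v : Fin (L + 1) → V) =
          stk a (L + 1) (Pi.single ⟨j, by omega⟩ v) - Pi.single ⟨j, by omega⟩ (a j v) := by
        rw [h1, add_sub_cancel_left]
      rw [h2]
      exact sub_mem (hSZ _ (ih _ _)) (ih _ _)
  have hStop : ∀ y, y ∈ S := by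
    intro y
    have h1 : y = ∑ i, Pi.single i (y i) := (Finset.univ_sum_single y).symm
    rw [h1]
    exact sum_mem fun i _ => hSj i i.2 (y i)
  refine (hN.tensor (dle_trunc k L)).of_surjective F ?_
  intro x
  have h1 : Idm.inl α x.1 + inr x.2 ∈ F.range := add_mem (hl _) (hStop x.2)
  have h2 : Idm.inl α x.1 + inr x.2 = x := by
    apply Idm.ext'
    · exact add_zero _
    · exact zero_add _
  rw [h2] at h1
  exact h1

end stb

end Pool.Agent.H62.BC
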