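import Pool.Agent.H62.BC.Targets

/-!
# The filtration of the stack
-/

open TensorProduct Module

namespace Pool.Agent.H62.BC

open Pool.Agent.H15.Defect Pool.Agent.H15.CX Pool.Agent.H2.WG

universe u

section stk

variable {k P V E : Type u} [Field k] [CommRing P] [Algebra k P] [AddCommGroup V] [Module k V]
  [AddCommGroup E] [Module k E]

theorem stk_apply (a : ℕ → Module.End k V) (n : ℕ) (f : Fin n → V) (i : Fin n) :
    stk a n f i = a i (f i) + (if h : (i : ℕ) = 0 then 0 else f ⟨(i : ℕ) - 1, by omega⟩) := by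
  show ((a i).comp (LinearMap.proj i) + (if h : (i : ℕ) = 0 then 0 else
    LinearMap.proj (⟨(i : ℕ) - 1, by omega⟩ : Fin n))) f = _
  rw [LinearMap.add_apply]
  congr 1
  split_ifs <;> rfl

/-- the inclusion of the submodule -/
def consMap (k V : Type u) [Field k] [AddCommGroup V] [Module k V] (n : ℕ) :
    (Fin n → V) →ₗ[k] (Fin (n + 1) → V) :=
  LinearMap.pi (Fin.cases 0 fun i => LinearMap.proj i)

theorem consMap_zero (n : ℕ) (f : Fin n → V) : consMap k V n f 0 = 0 := rfl

theorem consMap_succ (n : ℕ) (f : Fin n → V) (i : Fin n) : consMap k V n f i.succ = f i := rfl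

theorem consMap_injective (n : ℕ) : Function.Injective (consMap k V n) := by
  intro f g h
  funext i
  have := congrFun h i.succ
  rwa [consMap_succ, consMap_succ] at this

theorem stk_consMap (a : ℕ → Module.End k V) (n : ℕ) (f : Fin n → V) :
    stk a (n + 1) (consMap k V n f) = consMap k V n (stk (fun i => a (i + 1)) n f) := by
  funext i
  refine Fin.cases ?_ (fun i => ?_) i
  · rw [stk_apply, dif_pos (by simp), consMap_zero, consMap_zero, map_zero, add_zero]
  · rw [stk_apply, dif_neg (by simp), consMap_succ, consMap_succ, stk_apply]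
    congr 1
    by_cases h : (i : ℕ) = 0
    · rw [dif_pos h]
      have h1 : (⟨((i.succ : Fin (n + 1)) : ℕ) - 1, by omega⟩ : Fin (n + 1)) = 0 := by
        apply Fin.ext
        simp [h]
      rw [h1, consMap_zero]
    · rw [dif_neg h]
      have h1 : (⟨((i.succ : Fin (n + 1)) : ℕ) - 1, by omega⟩ : Fin (n + 1)) =
          Fin.succ ⟨(i : ℕ) - 1, by omega⟩ := by
        apply Fin.ext
        simp
        omega
      rw [h1, consMap_succ]

theorem stk_zero (a : ℕ → Module.End k V) (n : ℕ) (f : Fin (n + 1) → V) :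
    stk a (n + 1) f 0 = a 0 (f 0) := by
  rw [stk_apply, dif_pos (by simp), add_zero]
  rfl

theorem stk_pow_consMap (a : ℕ → Module.End k V) (n r : ℕ) (f : Fin n → V) :
    (stk a (n + 1) ^ r) (consMap k V n f) =
      consMap k V n ((stk (fun i => a (i + 1)) n ^ r) f) := by
  induction r generalizing f with
  | zero => rfl
  | succ r ih =>
    rw [pow_succ, pow_succ]
    show (stk a (n + 1) ^ r) (stk a (n + 1) (consMap k V n f)) = _
    rw [stk_consMap, ih]
    rfl

theorem stk_comm (ρ : P →ₐ[k] Module.End k V) (a : ℕ → Module.End k V)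
    (h : ∀ i p y, ρ p (a i y) = a i (ρ p y)) (n : ℕ) (p : P) (y : Fin n → V) :
    powE ρ (Fin n) p (stk a n y) = stk a n (powE ρ (Fin n) p y) := by
  funext i
  rw [powE_apply, stk_apply, stk_apply, map_add, h, powE_apply]
  congr 1
  split_ifs with h
  · exact map_zero _
  · rfl

theorem stk_filtration (ρ : P →ₐ[k] Module.End k V) (L m : ℕ) (σ : PT k P L →ₐ[k] Module.End k E)
    (n : ℕ) : ∀ (a : ℕ → Module.End k V) (hZ : stk a n ^ (L + 1) = 0)
    (hc : ∀ p y, powE ρ (Fin n) p (stk a n y) = stk a n (powE ρ (Fin n) p y))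
    (ha : ∀ i, a i ^ (L + 1) = 0) (hca : ∀ i p y, ρ p (a i y) = a i (ρ p y)),
    (∀ i, LeM (act ρ L (a i) (ha i) (hca i)) (powE σ (Fin m))) →
    LeM (act (powE ρ (Fin n)) L (stk a n) hZ hc) (powE σ (Fin (n * m))) := by
  induction n with
  | zero =>
    intro a hZ hc ha hca hle
    refine LeM.of_surjective 0 ?_ ?_
    · intro f
      refine ⟨0, ?_⟩
      funext i
      have := i.2
      omega
    · intro p y
      simp
  | succ n ih =>
    intro a hZ hc ha hca hle
    have hZ' : stk (fun i => a (i + 1)) n ^ (L + 1) = 0 := by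
      apply LinearMap.ext
      intro f
      apply consMap_injective (k := k) n
      rw [← stk_pow_consMap, hZ, LinearMap.zero_apply, LinearMap.zero_apply, map_zero]
    have h1 := ih (fun i => a (i + 1)) hZ' (stk_comm ρ _ (fun i => hca (i + 1)) n)
      (fun i => ha (i + 1)) (fun i => hca (i + 1)) (fun i => hle (i + 1))
    have h2 : LeM (act (powE ρ (Fin (n + 1))) L (stk a (n + 1)) hZ hc)
        (prodE (act (powE ρ (Fin n)) L (stk (fun i => a (i + 1)) n) hZ'
          (stk_comm ρ _ (fun i => hca (i + 1)) n)) (act ρ L (a 0) (ha 0) (hca 0))) := by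
      refine LeM.act_split (consMap k V n) (LinearMap.proj 0) (consMap_injective n) ?_ ?_ ?_ ?_ ?_ ?_
      · intro y
        exact ⟨fun _ => y, rfl⟩
      · intro f
        rfl
      · intro p f
        funext i
        refine Fin.cases ?_ (fun i => ?_) i
        · rw [consMap_zero, powE_apply, consMap_zero, map_zero]
        · rfl
      · intro p f
        rfl
      · intro f
        rw [stk_consMap]
      · intro f
        exact stk_zero a n f
    refine h2.trans ((h1.prod (hle 0)).trans ?_)
    have h3 := leM_powE_add σ (n * m) m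
    have h4 : (n + 1) * m = n * m + m := by ring
    rw [h4]
    exact h3

theorem pf_STC : T_STC.{u} := by
  intro k P V E _ _ _ _ _ _ _ ρ a L m σ hZ hc ha hca hle
  exact stk_filtration ρ L m σ (L + 1) a hZ hc ha hca hle

end stk

end Pool.Agent.H62.BC
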