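import Pool.Agent.H62.BC.LocU
import Pool.Agent.H62.BC.STB
import Pool.Agent.H62.BC.STC
import Pool.Agent.H62.BC.Glo
import Pool.Agent.H12.BC.L3
import Pool.Agent.H14.BC.A3
import Pool.Agent.H14.BC.GOOD
import Pool.Agent.H14.BC.LOC
import Pool.Agent.H29.BC.A5
import Pool.Agent.H29.BC.STA
import Pool.Agent.H35.BC.L4
import Pool.Agent.H36.BC.GEN
import Pool.Agent.H49.BC.A4
import Pool.Agent.H72.BC.A1
import Pool.Agent.H96.BC.A2

/-!
# Bounded catalysis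
-/

open TensorProduct Module

namespace Pool.Agent.H62.BC

universe u

theorem all_L4 : T_L4.{u} :=
  Pool.Agent.H35.BC.pf_L4 Pool.Agent.H72.BC.pf_A1 (Pool.Agent.H96.BC.pf_A2 Pool.Agent.H72.BC.pf_A1)
    Pool.Agent.H14.BC.pf_A3 Pool.Agent.H49.BC.pf_A4 Pool.Agent.H29.BC.pf_A5

theorem all_L3 : T_L3.{u} := Pool.Agent.H12.BC.pf_L3 all_L4

theorem all_P1u : T_P1u.{u} :=
  pf_P1u all_L3 Pool.Agent.H29.BC.pf_STA pf_STB pf_STC Pool.Agent.H14.BC.pf_GOOD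

theorem all_BCu : T_BCu.{u} := pf_BCu all_P1u

theorem all_P1 : T_P1.{u} :=
  pf_P1 all_L3 Pool.Agent.H29.BC.pf_STA pf_STB pf_STC Pool.Agent.H14.BC.pf_GOOD

theorem all_BC : T_BC.{u} :=
  pf_BC (Pool.Agent.H14.BC.pf_LOC (Pool.Agent.H36.BC.pf_GEN all_P1))

theorem all_QNT : T_QNT.{u} := pf_QNT all_BC

end Pool.Agent.H62.BC
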