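import Pool.Agent.H62.BC.Targets
import Mathlib.LinearAlgebra.Matrix.ToLin

/-!
# Freeing one variable
-/

open TensorProduct Module

namespace Pool.Agent.H62.BC

open Pool.Agent.H15.Defect Pool.Agent.H15.CX Pool.Agent.H2.WG

universe u

section aux

variable {k : Type u} [Field k]

theorem ppol_map {R S : Type u} [Ring R] [Ring S] (φ : R →+* S) (M : ℕ → R) (n : ℕ) :
    ppol (fun i => φ (M i)) n = (ppol M n).map φ := by
  induction n with
  | zero => simp [ppol]
  | succ n ih =>
    rw [ppol, ppol, ih, Polynomial.map_mul, Polynomial.map_add, Polynomial.map_one,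
      Polynomial.map_mul, Polynomial.map_X, Polynomial.map_C]

/-- The algebra homomorphism from matrices to endomorphisms of `I → k`. -/
noncomputable def mtl (k : Type u) [Field k] (I : Type) [Fintype I] [DecidableEq I] :
    Matrix I I k →ₐ[k] Module.End k (I → k) := (Matrix.toLinAlgEquiv' (R := k) (n := I)).toAlgHom

theorem mtl_apply {I : Type} [Fintype I] [DecidableEq I] (M : Matrix I I k) (v : I → k) :
    mtl k I M v = M.mulVec v := rfl

theorem good_of_goodMat {I : Type} [Fintype I] [DecidableEq I] {M : Matrix I I k}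
    (h : GoodMat M) : Good (mtl k I M) := by
  rcases h with h | ⟨u, w, rfl⟩
  · exact Or.inl (h.map (mtl k I))
  · refine Or.inr ?_
    have h1 : LinearMap.range (mtl k I (Matrix.vecMulVec u w)) ≤ Submodule.span k {u} := by
      rintro _ ⟨v, rfl⟩
      rw [mtl_apply, Submodule.mem_span_singleton]
      refine ⟨w ⬝ᵥ v, ?_⟩
      funext i
      simp only [Matrix.mulVec, Matrix.vecMulVec_apply, dotProduct, Pi.smul_apply, smul_eq_mul,
        Finset.sum_mul]
      refine Finset.sum_congr rfl fun j _ => ?_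
      ring
    refine (Submodule.finrank_mono h1).trans ?_
    refine (finrank_span_le_card ({u} : Set (I → k))).trans ?_
    simp

end aux

section p1

variable {k P E : Type u} [Field k] [CommRing P] [Algebra k P] [AddCommGroup E]
  [Module k E]

theorem tenE_apply (ρ : P →ₐ[k] Module.End k E) (W : Type u) [AddCommGroup W] [Module k W] (p : P) :
    tenE ρ W p = TensorProduct.map (ρ p) LinearMap.id := rfl

/-- The power of a module is its tensor product with a vector space. -/
theorem leM_tenE (ρ : P →ₐ[k] Module.End k E) (W : Type u) [AddCommGroup W] [Module k W]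
    [Module.Finite k W] : LeM (powE ρ (Fin (finrank k W))) (tenE ρ W) := by
  let b := Module.finBasis k W
  let g : (Fin (finrank k W) → E) →ₗ[k] E ⊗[k] W :=
    ∑ i, ((TensorProduct.mk k E W).flip (b i)).comp (LinearMap.proj i)
  have hg : ∀ f, g f = ∑ i, f i ⊗ₜ[k] b i := by
    intro f
    simp [g]
  refine LeM.of_surjective g ?_ ?_
  · intro x
    induction x using TensorProduct.induction_on with
    | zero => exact ⟨0, map_zero _⟩
    | add x y hx hy =>
      obtain ⟨f, rfl⟩ := hx
      obtain ⟨f', rfl⟩ := hy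
      exact ⟨f + f', map_add _ _ _⟩
    | tmul y w =>
      refine ⟨fun i => b.repr w i • y, ?_⟩
      rw [hg]
      conv_rhs => rw [← b.sum_repr w, TensorProduct.tmul_sum]
      refine Finset.sum_congr rfl fun i _ => ?_
      rw [TensorProduct.smul_tmul]
  · intro p f
    rw [hg, hg, tenE_apply, map_sum]
    refine Finset.sum_congr rfl fun i _ => ?_
    rw [TensorProduct.map_tmul]
    rfl

theorem map_mul' {W : Type u} [AddCommGroup W] [Module k W] (f g : Module.End k E)
    (f' g' : Module.End k W) : (TensorProduct.map f f' : Module.End k (E ⊗[k] W)) *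
      TensorProduct.map g g' = TensorProduct.map (f * g) (f' * g') :=
  (TensorProduct.map_mul f g f' g').symm

theorem map_pow' {W : Type u} [AddCommGroup W] [Module k W] (f : Module.End k E)
    (f' : Module.End k W) (n : ℕ) : (TensorProduct.map f f' : Module.End k (E ⊗[k] W)) ^ n =
      TensorProduct.map (f ^ n) (f' ^ n) := by
  induction n with
  | zero =>
    rw [pow_zero, pow_zero, pow_zero]
    exact TensorProduct.map_one.symm
  | succ n ih => rw [pow_succ, ih, map_mul', pow_succ, pow_succ]

theorem dle_step (hA : T_STA.{u}) (hB : T_STB.{u}) (hC : T_STC.{u}) (hG : T_GOOD.{u})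
    (ρ : P →ₐ[k] Module.End k E) (t : Module.End k E) (hc : ∀ p y, ρ p (t y) = t (ρ p y))
    (L e : ℕ) (ht : t ^ (L + 1) = 0) (hte : t ^ (e + 1) = 0)
    {I : Type} [Fintype I] [DecidableEq I] (M : ℕ → Matrix I I k) (hM : ∀ i, GoodMat (M i))
    (hcoef : ∀ l ≤ e, (ppol M (L + 1)).coeff l = ((L + 1).choose l : ℕ)) (N : ℕ)
    (hN : Dle k (Idm (powE ρ (Fin (Fintype.card I)))) N) :
    Dle k (Idm (powE (act ρ L t ht hc) (Fin ((L + 1) * (Fintype.card I - 1))))) (N * (L + 1)) := by
  let W : Type u := I → k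
  have hfr : finrank k W = Fintype.card I := Module.finrank_fintype_fun_eq_card k
  have h1 : Dle k (Idm (tenE ρ W)) N := by
    have := leM_tenE ρ W
    rw [hfr] at this
    exact this.dle hN
  let φ : Matrix I I k →ₐ[k] Module.End k (E ⊗[k] W) :=
    (Module.End.lTensorAlgHom k W E).comp (mtl k I)
  have hφ : ∀ B, φ B = TensorProduct.map LinearMap.id (mtl k I B) := fun _ => rfl
  let τ : Module.End k (E ⊗[k] W) := TensorProduct.map t 1
  have hcom : ∀ i, Commute τ (φ (M i)) := by
    intro i
    show τ * φ (M i) = φ (M i) * τ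
    rw [hφ]
    show TensorProduct.map t (1 : Module.End k W) * TensorProduct.map (1 : Module.End k E) _ =
      TensorProduct.map (1 : Module.End k E) _ * TensorProduct.map t (1 : Module.End k W)
    rw [map_mul', map_mul', mul_one, one_mul, mul_one, one_mul]
  have hτ : τ ^ (e + 1) = 0 := by
    show TensorProduct.map t (1 : Module.End k W) ^ (e + 1) = 0
    rw [map_pow', hte, TensorProduct.map_zero_left]
  have hcoef' : ∀ l ≤ e, (ppol (fun i => φ (M i)) (L + 1)).coeff l = ((L + 1).choose l : ℕ) := by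
    intro l hl
    have := ppol_map (φ : Matrix I I k →+* Module.End k (E ⊗[k] W)) M (L + 1)
    have h2 : (ppol (fun i => φ (M i)) (L + 1)) =
        (ppol M (L + 1)).map (φ : Matrix I I k →+* Module.End k (E ⊗[k] W)) := this
    rw [h2, Polynomial.coeff_map, hcoef l hl, map_natCast]
  have hZ := hA k (E ⊗[k] W) (L + 1) e τ (fun i => φ (M i)) hcom hτ hcoef'
  have ha : ∀ i, τ * (1 - φ (M i)) = TensorProduct.map t (1 - mtl k I (M i)) := by
    intro i
    have h3 : (1 : Module.End k (E ⊗[k] W)) - φ (M i) =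
        TensorProduct.map (1 : Module.End k E) (1 - mtl k I (M i)) := by
      have h30 : (1 : Module.End k (E ⊗[k] W)) - φ (M i) = φ (1 - M i) := by
        rw [map_sub, map_one]
      rw [h30, hφ, map_sub, map_one]
      rfl
    rw [h3]
    show TensorProduct.map t (1 : Module.End k W) * _ = _
    rw [map_mul', mul_one, one_mul]
  have hca : ∀ i p y, tenE ρ W p ((τ * (1 - φ (M i))) y) =
      (τ * (1 - φ (M i))) (tenE ρ W p y) := by
    intro i p y
    rw [ha]
    have h4 : (TensorProduct.map (ρ p) (1 : Module.End k W) : Module.End k (E ⊗[k] W)) *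
        TensorProduct.map t (1 - mtl k I (M i)) = TensorProduct.map t (1 - mtl k I (M i)) *
          TensorProduct.map (ρ p) (1 : Module.End k W) := by
      rw [map_mul', map_mul', one_mul, mul_one]
      congr 1
      exact LinearMap.ext fun x => hc p x
    exact LinearMap.congr_fun h4 y
  have han : ∀ i, (τ * (1 - φ (M i))) ^ (L + 1) = 0 := by
    intro i
    rw [ha, map_pow', ht, TensorProduct.map_zero_left]
  have hcF : ∀ p y, powE (tenE ρ W) (Fin (L + 1)) p (stk (fun i => τ * (1 - φ (M i))) (L + 1) y) =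
      stk (fun i => τ * (1 - φ (M i))) (L + 1) (powE (tenE ρ W) (Fin (L + 1)) p y) := by
    intro p y
    funext i
    have h5 : ∀ (f : Fin (L + 1) → E ⊗[k] W) (i : Fin (L + 1)),
        stk (fun i => τ * (1 - φ (M i))) (L + 1) f i = (τ * (1 - φ (M i))) (f i) +
          (if h : (i : ℕ) = 0 then 0 else f ⟨(i : ℕ) - 1, by omega⟩) := by
      intro f i
      show ((τ * (1 - φ (M i))).comp (LinearMap.proj i) + (if h : (i : ℕ) = 0 then 0 else
        LinearMap.proj (⟨(i : ℕ) - 1, by omega⟩ : Fin (L + 1)))) f = _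
      rw [LinearMap.add_apply]
      congr 1
      split_ifs <;> rfl
    rw [powE_apply, h5, h5, map_add, hca, powE_apply]
    congr 1
    split_ifs with h
    · exact map_zero _
    · rfl
  have h2 := hB k P (E ⊗[k] W) (tenE ρ W) (fun i => τ * (1 - φ (M i))) L hZ hcF N hca h1
  have h3 := hC k P (E ⊗[k] W) E (tenE ρ W) (fun i => τ * (1 - φ (M i))) L (Fintype.card I - 1)
    (act ρ L t ht hc) hZ hcF han hca (by
      intro i
      have h6 : ∀ (T : Module.End k (E ⊗[k] W)) (hT : T = TensorProduct.map t (1 - mtl k I (M i)))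
          (h7 : T ^ (L + 1) = 0) (h8 : ∀ p y, tenE ρ W p (T y) = T (tenE ρ W p y)),
          LeM (act (tenE ρ W) L T h7 h8) (powE (act ρ L t ht hc) (Fin (Fintype.card I - 1))) := by
        intro T hT h7 h8
        subst hT
        have := hG k P E W ρ L t (mtl k I (M i)) ht hc h7 h8 (good_of_goodMat (hM i))
        rwa [hfr] at this
      exact h6 _ (ha i) _ _)
  exact h3.dle h2

theorem pf_P1 (h3 : T_L3.{u}) (hA : T_STA.{u}) (hB : T_STB.{u}) (hC : T_STC.{u})
    (hG : T_GOOD.{u}) : T_P1.{u} := by
  intro k P E _ _ _ _ _ _ _ ρ t hc C hnil hBC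
  obtain ⟨e, he⟩ := hnil
  have hte : t ^ (e + 1) = 0 := by rw [pow_succ, he, zero_mul]
  obtain ⟨n, hn, hM⟩ := h3 k e
  obtain ⟨L, rfl⟩ : ∃ L, n = L + 1 := ⟨n - 1, by omega⟩
  have ht : t ^ (L + 1) = 0 := pow_eq_zero_of_le hn hte
  refine ⟨L, ht, ((L + 1) + (L + 1) * (e + 1)) * finrank k E + (L + 1) * C, ?_⟩
  intro u
  set h : ℕ := (u + (L + 1)) / ((L + 1) * (e + 1)) + 1 with hh
  obtain ⟨M, hgood, hcoef⟩ := hM h
  have hcard : Fintype.card (Fin (e + 1) × Fin h) = (e + 1) * h := by simp
  have h1 := dle_step hA hB hC hG ρ t hc L e ht hte M hgood hcoef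
    (((e + 1) * h) * finrank k E + C) (by rw [hcard]; exact hBC _)
  rw [hcard] at h1
  have hpos : 0 < (L + 1) * (e + 1) := by positivity
  have h4 := Nat.div_add_mod (u + (L + 1)) ((L + 1) * (e + 1))
  have h5 := Nat.mod_lt (u + (L + 1)) hpos
  have h6 : (L + 1) * ((e + 1) * h) = (L + 1) * (e + 1) * ((u + (L + 1)) / ((L + 1) * (e + 1))) +
      (L + 1) * (e + 1) := by
    rw [hh]
    ring
  have h7 : u + (L + 1) ≤ (L + 1) * ((e + 1) * h) := by omega
  have h8 : (L + 1) * ((e + 1) * h) ≤ u + (L + 1) + (L + 1) * (e + 1) := by omega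
  have h9 : u ≤ (L + 1) * ((e + 1) * h - 1) := by
    rw [Nat.mul_sub, mul_one]
    omega
  refine ((leM_powE_mono _ h9).dle h1).mono ?_
  calc ((e + 1) * h * finrank k E + C) * (L + 1) =
      (L + 1) * ((e + 1) * h) * finrank k E + (L + 1) * C := by ring
    _ ≤ (u + (L + 1) + (L + 1) * (e + 1)) * finrank k E + (L + 1) * C :=
        Nat.add_le_add_right (Nat.mul_le_mul_right _ h8) _
    _ = _ := by ring

end p1

end Pool.Agent.H62.BC
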