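import Pool.Agent.H62.BC.ExpU
import Pool.Agent.H62.BC.Final

/-!
# Bounded catalysis for powers
-/

open TensorProduct Module

namespace Pool.Agent.H62.BC

open Pool.Agent.H12.Defect Pool.Agent.H15.Defect Pool.Agent.H15.CX Pool.Agent.H2.WG
open Pool.Agent.H15.ER Pool.Agent.H14.MM
open Pool.Agent.H14.RF hiding tr

universe u

/-- the error term -/
def FF (c e n r β : ℕ) : ℕ := e ^ n * (2 * c) ^ (r + n * e) * (e ^ n * β + 1)

theorem FF_succ (c e n r β : ℕ) : e * FF c e n (r + e) (e * β) = FF c e (n + 1) r β := by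
  unfold FF
  rw [show r + e + n * e = r + (n + 1) * e by ring]
  ring

theorem FF_mono {c e n r r' β β' : ℕ} (hc : 1 ≤ c) (hr : r ≤ r') (hβ : β ≤ β') :
    FF c e n r β ≤ FF c e n r' β' := by
  unfold FF
  have h1 : (2 * c) ^ (r + n * e) ≤ (2 * c) ^ (r' + n * e) :=
    Nat.pow_le_pow_right (by omega) (by omega)
  gcongr

/-- the estimate for one algebra `T` -/
def GoodT (k : Type u) [Field k] (Z : ℕ → Type u) [∀ b, CommRing (Z b)] [∀ b, Algebra k (Z b)]
    (c e n : ℕ) (T : Type u) [CommRing T] [Algebra k T] : Prop :=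
  ∀ (r : ℕ) (B : Type u) [CommRing B] [Algebra k B] [Module.Finite k B] [Nontrivial B],
    Gen k e r B → ∀ b : ℕ, Dle k (T ⊗[k] (B ⊗[k] Z b))
      (finrank k T * finrank k B * b + FF c e n r (finrank k B))

section swap

variable (k T B Z X : Type u) [Field k] [CommRing T] [Algebra k T] [CommRing B] [Algebra k B]
  [CommRing Z] [Algebra k Z] [CommRing X] [Algebra k X]

/-- rearrangement -/
noncomputable def swap1 : (T ⊗[k] ((X ⊗[k] B) ⊗[k] Z)) ≃ₐ[k] ((T ⊗[k] (B ⊗[k] Z)) ⊗[k] X) :=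
  ((Algebra.TensorProduct.congr AlgEquiv.refl
    ((Algebra.TensorProduct.assoc k k k X B Z).trans
      (Algebra.TensorProduct.comm k X (B ⊗[k] Z)))).trans
    (Algebra.TensorProduct.assoc k k k T (B ⊗[k] Z) X).symm)

/-- rearrangement -/
noncomputable def swap2 : ((T ⊗[k] (B ⊗[k] Z)) ⊗[k] X) ≃ₐ[k] ((X ⊗[k] T) ⊗[k] (B ⊗[k] Z)) :=
  (Algebra.TensorProduct.comm k (T ⊗[k] (B ⊗[k] Z)) X).trans
    (Algebra.TensorProduct.assoc k k k X T (B ⊗[k] Z)).symm

end swap

section step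

variable {k : Type u} [Field k] [IsAlgClosed k] {Z : ℕ → Type u} [∀ b, CommRing (Z b)]
  [∀ b, Algebra k (Z b)]

theorem step_split {c e n : ℕ} (hc : 1 ≤ c) {T : Type u} [CommRing T] [Algebra k T]
    (hT : GoodT k Z c e n T) : ∀ (x : ℕ) (X : Type u) [CommRing X] [Algebra k X]
      [Module.Finite k X] [Nontrivial X], finrank k X = x → x ≤ e →
      ∀ (r : ℕ) (B : Type u) [CommRing B] [Algebra k B] [Module.Finite k B] [Nontrivial B],
      Gen k e r B → ∀ b : ℕ, Dle k ((T ⊗[k] (B ⊗[k] Z b)) ⊗[k] X)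
        (x * (finrank k T * finrank k B * b) + x * FF c e n (r + e) (e * finrank k B)) := by
  intro x
  induction x using Nat.strong_induction_on with
  | _ x ih =>
    intro X _ _ _ _ hx hxe r B _ _ _ _ hB b
    obtain ⟨α⟩ := exists_point (k := k) (A := X)
    rcases local_or_split α with ⟨s, hs⟩ | ⟨X₁, X₂, _, _, _, _, _, _, _, _, ⟨E⟩⟩
    · have hX : Gen k e (finrank k X) X := Gen.of_local α s hs (by omega)
      have hn : Nontrivial (X ⊗[k] B) := nontrivial_tensor X B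
      have h1 := hT _ (X ⊗[k] B) (hX.tensor hB) b
      rw [Module.finrank_tensorProduct, hx] at h1
      have h2 : Dle k ((T ⊗[k] (B ⊗[k] Z b)) ⊗[k] X) _ := h1.of_equiv (swap1 k T B (Z b) X)
      refine h2.mono ?_
      have hx1 : 1 ≤ x := by
        rw [← hx]
        exact Module.finrank_pos
      have h3 : FF c e n (x + r) (x * finrank k B) ≤ FF c e n (r + e) (e * finrank k B) :=
        FF_mono hc (by omega) (Nat.mul_le_mul_right _ hxe)
      have h4 : FF c e n (r + e) (e * finrank k B) ≤ x * FF c e n (r + e) (e * finrank k B) :=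
        Nat.le_mul_of_pos_left _ hx1
      have h5 : finrank k T * (x * finrank k B) * b = x * (finrank k T * finrank k B * b) := by
        ring
      omega
    · have hfr : finrank k X = finrank k X₁ + finrank k X₂ := by
        rw [← Module.finrank_prod]
        exact LinearEquiv.finrank_eq E.toLinearEquiv
      have hp1 := Module.finrank_pos (R := k) (M := X₁)
      have hp2 := Module.finrank_pos (R := k) (M := X₂)
      have h1 := ih _ (by omega) X₁ rfl (by omega) r B hB b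
      have h2 := ih _ (by omega) X₂ rfl (by omega) r B hB b
      have h3 : Dle k ((T ⊗[k] (B ⊗[k] Z b)) ⊗[k] (X₁ × X₂)) _ :=
        (h1.prod h2).of_equiv
          (Algebra.TensorProduct.prodRight k k (T ⊗[k] (B ⊗[k] Z b)) X₁ X₂).symm
      have h4 : Dle k ((T ⊗[k] (B ⊗[k] Z b)) ⊗[k] X) _ :=
        h3.of_equiv (Algebra.TensorProduct.congr AlgEquiv.refl E.symm)
      refine h4.mono (le_of_eq ?_)
      rw [← hx, hfr]
      ring

theorem GoodT.power {c e : ℕ} (hc : 1 ≤ c) (h0 : ∀ (r : ℕ) (B : Type u) [CommRing B] [Algebra k B]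
      [Module.Finite k B] [Nontrivial B], Gen k e r B → ∀ b : ℕ,
      Dle k (B ⊗[k] Z b) (finrank k B * b + (2 * c) ^ r * (finrank k B + 1)))
    (A : Type u) [CommRing A] [Algebra k A] [Module.Finite k A] [Nontrivial A]
    (hA : finrank k A ≤ e) : ∀ n : ℕ, GoodT k Z c e n (⨂[k] _ : Fin n, A)
  | 0 => by
    intro r B _ _ _ _ hB b
    have h1 := h0 r B hB b
    have h2 : Dle k (k ⊗[k] (B ⊗[k] Z b)) _ :=
      h1.of_equiv (Algebra.TensorProduct.lid k (B ⊗[k] Z b)).symm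
    have h3 : Function.Surjective (Algebra.ofId k (⨂[k] _ : Fin 0, A)) := by
      intro z
      induction z using PiTensorProduct.induction_on with
      | smul_tprod r f =>
        refine ⟨r, ?_⟩
        rw [Algebra.ofId_apply, Algebra.algebraMap_eq_smul_one, PiTensorProduct.one_def]
        congr 2
        exact Subsingleton.elim _ _
      | add x y hx hy =>
        obtain ⟨x', hx'⟩ := hx
        obtain ⟨y', hy'⟩ := hy
        exact ⟨x' + y', by rw [map_add, hx', hy']⟩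
    have h4 : Dle k ((⨂[k] _ : Fin 0, A) ⊗[k] (B ⊗[k] Z b)) _ :=
      h2.of_surjective (Algebra.TensorProduct.map (Algebra.ofId k _)
        (AlgHom.id k (B ⊗[k] Z b))) (TensorProduct.map_surjective h3 Function.surjective_id)
    refine h4.mono (le_of_eq ?_)
    rw [finrank_power, FF]
    simp
  | n + 1 => by
    intro r B _ _ _ _ hB b
    have h1 := step_split hc (GoodT.power hc h0 A hA n) _ A rfl hA r B hB b
    have h2 : Dle k ((A ⊗[k] (⨂[k] _ : Fin n, A)) ⊗[k] (B ⊗[k] Z b)) _ :=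
      h1.of_equiv (swap2 k (⨂[k] _ : Fin n, A) B (Z b) A)
    have h4 : Dle k ((⨂[k] _ : Fin (n + 1), A) ⊗[k] (B ⊗[k] Z b)) _ :=
      h2.of_surjective (Algebra.TensorProduct.map (consHom k A n)
        (AlgHom.id k (B ⊗[k] Z b)))
        (TensorProduct.map_surjective (consHom_surjective n) Function.surjective_id)
    refine h4.mono ?_
    have h5 : finrank k A * FF c e n (r + e) (e * finrank k B) ≤ FF c e (n + 1) r (finrank k B) := by
      rw [← FF_succ]
      exact Nat.mul_le_mul_right _ hA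
    have h6 : finrank k (⨂[k] _ : Fin (n + 1), A) * finrank k B * b =
        finrank k A * (finrank k (⨂[k] _ : Fin n, A) * finrank k B * b) := by
      rw [finrank_power, finrank_power]
      ring
    omega

end step

theorem all_P1v : T_P1v.{u} :=
  pf_P1v all_L3 Pool.Agent.H29.BC.pf_STA pf_STB pf_STC Pool.Agent.H14.BC.pf_GOOD

theorem bounded_powers (k : Type u) [Field k] [IsAlgClosed k] (d : ℕ) : ∃ K : ℕ,
    ∀ (A : Type u) [CommRing A] [Algebra k A] [Module.Finite k A] [Nontrivial A],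
      finrank k A = d → ∀ n b : ℕ, 1 ≤ n →
      defect k ((⨂[k] _ : Fin n, A) ⊗[k] ZZ k b) ≤ ((K ^ n : ℕ) : ℕ∞) := by
  obtain ⟨c, hc, h0⟩ := dle_gen all_P1v k d
  refine ⟨2 * d ^ 2 * (2 * c) ^ d, ?_⟩
  intro A _ _ _ _ hd n b hn
  have hd1 : 1 ≤ d := by
    rw [← hd]
    exact Module.finrank_pos
  have h1 := GoodT.power hc h0 A hd.le n 0 k (Gen.self k d) b
  have h2 : Dle k ((⨂[k] _ : Fin n, A) ⊗[k] ZZ k b) _ :=
    h1.of_equiv (Algebra.TensorProduct.congr AlgEquiv.refl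
      (Algebra.TensorProduct.lid k (ZZ k b)))
  refine defect_le h2 ?_
  rw [Module.finrank_tensorProduct, finrank_power, finrank_ZZ, hd, Module.finrank_self, FF]
  have h3 : d ^ n * 1 + 1 ≤ 2 ^ n * d ^ n := by
    have h4 : 1 ≤ d ^ n := Nat.one_le_pow _ _ hd1
    have h5 : 2 ≤ 2 ^ n := by
      calc 2 = 2 ^ 1 := rfl
        _ ≤ 2 ^ n := Nat.pow_le_pow_right (by omega) hn
    nlinarith
  have h6 : d ^ n * (2 * c) ^ (0 + n * d) * (d ^ n * 1 + 1) ≤ (2 * d ^ 2 * (2 * c) ^ d) ^ n := by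
    calc d ^ n * (2 * c) ^ (0 + n * d) * (d ^ n * 1 + 1) ≤
        d ^ n * (2 * c) ^ (0 + n * d) * (2 ^ n * d ^ n) := Nat.mul_le_mul_left _ h3
      _ = (2 * d ^ 2 * (2 * c) ^ d) ^ n := by
        rw [zero_add, mul_pow (2 * d ^ 2), mul_pow 2 (d ^ 2), ← pow_mul d 2 n,
          ← pow_mul (2 * c) d n, mul_comm d n]
        ring
  have h7 : d ^ n * 1 * b ≤ d ^ n * (b + 1) := by
    rw [mul_one]
    exact Nat.mul_le_mul_left _ (by omega)
  omega

/-- The final form of the quantitative part. -/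
theorem bounded_final (k : Type u) [Field k] [IsAlgClosed k] (d : ℕ) : ∃ K : ℕ,
    ∀ (A : Type u) [CommRing A] [Algebra k A] [Module.Finite k A] [Nontrivial A],
      finrank k A = d →
      (∀ n b : ℕ, 1 ≤ n → defect k ((⨂[k] _ : Fin n, A) ⊗[k] ZZ k b) ≤ ((K ^ n : ℕ) : ℕ∞)) ∧
      (∀ B : ℕ, K < B → Filter.Tendsto (fun n : ℕ =>
        ((defect k ((⨂[k] _ : Fin n, A) ⊗[k] ZZ k (B ^ n))).toNat : ℝ) /
          ((d : ℝ) ^ n * ((B : ℝ) ^ n + 1))) Filter.atTop (nhds 0)) ∧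
      ∀ b : ℕ, (d * ((b : ℝ) + 1) ≤ Lam k (A ⊗[k] ZZ k b) ∧
          Lam k (A ⊗[k] ZZ k b) ≤ d * ((b : ℝ) + 1) + K) ∧
        (d + ((b : ℝ) + 1) ≤ Lam k (A × ZZ k b) ∧
          Lam k (A × ZZ k b) ≤ d + ((b : ℝ) + 1) + K / ((b : ℝ) + 1)) := by
  obtain ⟨K₁, h1⟩ := bounded_powers k d
  obtain ⟨K₂, h2⟩ := bounded_growth k d
  refine ⟨max K₁ K₂, ?_⟩
  intro A _ _ _ _ hd
  have hdef : ∀ n b : ℕ, 1 ≤ n →
      defect k ((⨂[k] _ : Fin n, A) ⊗[k] ZZ k b) ≤ ((max K₁ K₂ ^ n : ℕ) : ℕ∞) := by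
    intro n b hn
    refine (h1 A hd n b hn).trans ?_
    exact_mod_cast Nat.pow_le_pow_left (le_max_left _ _) n
  refine ⟨hdef, ?_, ?_⟩
  · intro B hB
    set K : ℕ := max K₁ K₂ with hK
    have hB0 : (0 : ℝ) < B := by exact_mod_cast (by omega : 0 < B)
    have hd1 : (1 : ℝ) ≤ d := by
      rw [← hd]
      exact_mod_cast (Module.finrank_pos : 0 < finrank k A)
    have hlim : Filter.Tendsto (fun n : ℕ => ((K : ℝ) / B) ^ n) Filter.atTop (nhds 0) := by
      refine tendsto_pow_atTop_nhds_zero_of_lt_one (by positivity) ?_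
      rw [div_lt_one hB0]
      exact_mod_cast hB
    refine squeeze_zero' (Filter.Eventually.of_forall fun n => by positivity) ?_ hlim
    filter_upwards [Filter.eventually_ge_atTop 1] with n hn
    have h3 : ((defect k ((⨂[k] _ : Fin n, A) ⊗[k] ZZ k (B ^ n))).toNat : ℝ) ≤ (K : ℝ) ^ n := by
      have h4 := hdef n (B ^ n) hn
      have h5 : (defect k ((⨂[k] _ : Fin n, A) ⊗[k] ZZ k (B ^ n))).toNat ≤ K ^ n :=
        ENat.toNat_le_of_le_coe h4
      exact_mod_cast h5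
    rw [div_pow]
    have h6 : (0 : ℝ) < (B : ℝ) ^ n := by positivity
    have h7 : (B : ℝ) ^ n ≤ (d : ℝ) ^ n * ((B : ℝ) ^ n + 1) := by
      have h8 : (1 : ℝ) ≤ (d : ℝ) ^ n := one_le_pow₀ hd1
      nlinarith
    exact div_le_div₀ (by positivity) h3 h6 h7
  · intro b
    obtain ⟨-, ⟨h3, h4⟩, h5, h6⟩ := h2 A hd b
    have h7 : (K₂ : ℝ) ≤ ((max K₁ K₂ : ℕ) : ℝ) := by exact_mod_cast le_max_right _ _
    have hb : (0 : ℝ) < (b : ℝ) + 1 := by positivity
    refine ⟨⟨h3, by linarith⟩, h5, h6.trans ?_⟩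
    have h8 : (K₂ : ℝ) / ((b : ℝ) + 1) ≤ ((max K₁ K₂ : ℕ) : ℝ) / ((b : ℝ) + 1) := by gcongr
    linarith

end Pool.Agent.H62.BC
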