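import Pool.Agent.H62.BC.Act
import Pool.Agent.H15.CX.PowerSaving
import Mathlib.Data.Matrix.Composition

/-!
# Targets of the theorem on bounded catalysis
-/

open TensorProduct Module

namespace Pool.Agent.H62.BC

open Pool.Agent.H12.Defect Pool.Agent.H15.Defect Pool.Agent.H15.CX Pool.Agent.H2.WG

universe u

/-! ## Matrices -/

/-- `E_ab x` (`a ≠ b`) is a `j`-th power of a nilpotent block matrix if there are `j + 1` blocks. -/
def T_A1 : Prop :=
  ∀ (R : Type u) [Ring R] (q j : ℕ) (a b : Fin q) (x : R), a ≠ b → 1 ≤ j → j + 1 ≤ q →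
    ∃ M : Matrix (Fin q) (Fin q) R, IsNilpotent M ∧ M ^ j = Matrix.single a b x

/-- `E_aa x - E_bb x` is a sum of three `j`-th powers of nilpotent matrices. -/
def T_A2 : Prop :=
  ∀ (R : Type u) [Ring R] (q j : ℕ) (a b : Fin q) (x : R), a ≠ b → 1 ≤ j → j + 1 ≤ q →
    ∃ M₁ M₂ M₃ : Matrix (Fin q) (Fin q) R, IsNilpotent M₁ ∧ IsNilpotent M₂ ∧ IsNilpotent M₃ ∧
      Matrix.single a a x - Matrix.single b b x = M₁ ^ j + M₂ ^ j + M₃ ^ j

/-- The cycle of length `j`. -/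
def T_A3 : Prop :=
  ∀ (R : Type u) [Ring R] (q j : ℕ) (D G : R), 1 ≤ j → j ≤ q → IsNilpotent (D * G) →
    ∃ (M : Matrix (Fin q) (Fin q) R) (C : Fin q → R), IsNilpotent M ∧
      M ^ j = Matrix.diagonal C ∧ ∑ a, C a = (j - 1) • (D * G) + G * D

/-- Strictly triangular matrices. -/
def T_A4 : Prop :=
  ∀ (k : Type u) [Field k] [Infinite k] (h j : ℕ) (N : Matrix (Fin h) (Fin h) k), 1 ≤ j →
    ((∀ i l, i ≤ l → N i l = 0) ∨ (∀ i l, l ≤ i → N i l = 0)) →
    ∃ D G : Matrix (Fin h) (Fin h) k, IsNilpotent (D * G) ∧ (j - 1) • (D * G) + G * D = N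

/-- Matrices of rank at most one. -/
def T_A5 : Prop :=
  ∀ (k : Type u) [Field k] [IsAlgClosed k] (I : Type) [Fintype I] [DecidableEq I] (j : ℕ)
    (u w : I → k), 1 ≤ j → ∃ u₁ w₁ u₂ w₂ : I → k,
      Matrix.vecMulVec u w = Matrix.vecMulVec u₁ w₁ ^ j + Matrix.vecMulVec u₂ w₂ ^ j

/-- Nilpotent or of rank at most one. -/
def GoodMat {k : Type u} [Field k] {I : Type} [Fintype I] [DecidableEq I] (M : Matrix I I k) : Prop :=
  IsNilpotent M ∨ ∃ u w : I → k, M = Matrix.vecMulVec u w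

/-- Every matrix is a bounded sum of `j`-th powers of good matrices. -/
def T_L4 : Prop :=
  ∀ (k : Type u) [Field k] [IsAlgClosed k] (q j : ℕ), 1 ≤ j → j + 1 ≤ q →
    ∃ c : ℕ, ∀ (h : ℕ) (B : Matrix (Fin q × Fin h) (Fin q × Fin h) k),
      ∃ M : Fin c → Matrix (Fin q × Fin h) (Fin q × Fin h) k,
        (∀ i, GoodMat (M i)) ∧ B = ∑ i, M i ^ j

/-- The product `(1 + X M_0) (1 + X M_1) ⋯ (1 + X M_(n-1))`. -/
noncomputable def ppol {R : Type u} [Ring R] (M : ℕ → R) : ℕ → Polynomial R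
  | 0 => 1
  | n + 1 => ppol M n * (1 + Polynomial.X * Polynomial.C (M n))

/-- The factorisation of `(1 + T)^n` modulo `T^(e+1)`. -/
def T_L3 : Prop :=
  ∀ (k : Type u) [Field k] [IsAlgClosed k] (e : ℕ), ∃ n : ℕ, e + 1 ≤ n ∧
    ∀ h : ℕ, ∃ M : ℕ → Matrix (Fin (e + 1) × Fin h) (Fin (e + 1) × Fin h) k,
      (∀ i, GoodMat (M i)) ∧ ∀ l ≤ e, (ppol M n).coeff l = (n.choose l : ℕ)

/-! ## Modules -/

section mods

variable {k P V : Type u} [Field k] [CommRing P] [Algebra k P] [AddCommGroup V] [Module k V]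

/-- The operator `(Z f)_i = a_i f_i + f_(i-1)`. -/
def stk (a : ℕ → Module.End k V) (n : ℕ) : Module.End k (Fin n → V) :=
  LinearMap.pi fun i => (a i).comp (LinearMap.proj i) +
    (if h : (i : ℕ) = 0 then 0 else LinearMap.proj (⟨(i : ℕ) - 1, by omega⟩ : Fin n))

/-- The module `Y ⊗ W`. -/
noncomputable def tenE (ρ : P →ₐ[k] Module.End k V) (W : Type u) [AddCommGroup W] [Module k W] :
    P →ₐ[k] Module.End k (V ⊗[k] W) :=
  (Module.End.rTensorAlgHom k V W).comp ρ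

/-- Nilpotent or of rank at most one. -/
def Good {W : Type u} [AddCommGroup W] [Module k W] (M : Module.End k W) : Prop :=
  IsNilpotent M ∨ finrank k (LinearMap.range M) ≤ 1

/-- All powers of `ρ` have covers of excess at most `C`. -/
def BCc (ρ : P →ₐ[k] Module.End k V) (C : ℕ) : Prop :=
  ∀ u : ℕ, Dle k (Idm (powE ρ (Fin u))) (u * finrank k V + C)

end mods

/-- Nilpotency of the stack. -/
def T_STA : Prop :=
  ∀ (k V : Type u) [Field k] [AddCommGroup V] [Module k V] (n e : ℕ) (τ : Module.End k V)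
    (M : ℕ → Module.End k V), (∀ i, Commute τ (M i)) → τ ^ (e + 1) = 0 →
    (∀ l ≤ e, (ppol M n).coeff l = (n.choose l : ℕ)) →
    stk (fun i => τ * (1 - M i)) n ^ n = 0

/-- A cover of the stack. -/
def T_STB : Prop :=
  ∀ (k P V : Type u) [Field k] [CommRing P] [Algebra k P] [AddCommGroup V] [Module k V]
    (ρ : P →ₐ[k] Module.End k V) (a : ℕ → Module.End k V) (L : ℕ)
    (hZ : stk a (L + 1) ^ (L + 1) = 0)
    (hc : ∀ p y, powE ρ (Fin (L + 1)) p (stk a (L + 1) y) =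
      stk a (L + 1) (powE ρ (Fin (L + 1)) p y))
    (N : ℕ), (∀ i p y, ρ p (a i y) = a i (ρ p y)) → Dle k (Idm ρ) N →
    Dle k (Idm (act (powE ρ (Fin (L + 1))) L (stk a (L + 1)) hZ hc))
      (N * (L + 1))

/-- The filtration of the stack. -/
def T_STC : Prop :=
  ∀ (k P V E : Type u) [Field k] [CommRing P] [Algebra k P] [AddCommGroup V] [Module k V]
    [AddCommGroup E] [Module k E]
    (ρ : P →ₐ[k] Module.End k V) (a : ℕ → Module.End k V) (L m : ℕ)
    (σ : PT k P L →ₐ[k] Module.End k E)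
    (hZ : stk a (L + 1) ^ (L + 1) = 0)
    (hc : ∀ p y, powE ρ (Fin (L + 1)) p (stk a (L + 1) y) =
      stk a (L + 1) (powE ρ (Fin (L + 1)) p y))
    (ha : ∀ i, a i ^ (L + 1) = 0) (hca : ∀ i p y, ρ p (a i y) = a i (ρ p y)),
    (∀ i, LeM (act ρ L (a i) (ha i) (hca i)) (powE σ (Fin m))) →
    LeM
      (act (powE ρ (Fin (L + 1))) L (stk a (L + 1)) hZ hc) (powE σ (Fin ((L + 1) * m)))

/-- Filtration of `E ⊗ W` for a good twist. -/
def T_GOOD : Prop :=
  ∀ (k P E W : Type u) [Field k] [CommRing P] [Algebra k P] [AddCommGroup E] [Module k E]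
    [AddCommGroup W] [Module k W] [Module.Finite k W]
    (ρ : P →ₐ[k] Module.End k E) (L : ℕ) (t : Module.End k E) (M : Module.End k W)
    (ht : t ^ (L + 1) = 0) (hc : ∀ p y, ρ p (t y) = t (ρ p y))
    (hT : (TensorProduct.map t (1 - M) : Module.End k (E ⊗[k] W)) ^ (L + 1) = 0)
    (hcT : ∀ p y, tenE ρ W p (TensorProduct.map t (1 - M) y) =
      TensorProduct.map t (1 - M) (tenE ρ W p y)), Good M →
    LeM
      (act (tenE ρ W) L (TensorProduct.map t (1 - M)) hT hcT)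
      (powE (act ρ L t ht hc) (Fin (finrank k W - 1)))

/-- Freeing one variable. -/
def T_P1 : Prop :=
  ∀ (k P E : Type u) [Field k] [IsAlgClosed k] [CommRing P] [Algebra k P] [AddCommGroup E]
    [Module k E] [Module.Finite k E]
    (ρ : P →ₐ[k] Module.End k E) (t : Module.End k E) (hc : ∀ p y, ρ p (t y) = t (ρ p y)) (C : ℕ),
    IsNilpotent t → BCc ρ C →
    ∃ (L : ℕ) (ht : t ^ (L + 1) = 0) (C' : ℕ),
      BCc (act ρ L t ht hc) C'

/-- Induction over the generators. -/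
def T_GEN : Prop :=
  ∀ (k A : Type u) [Field k] [IsAlgClosed k] [CommRing A] [Algebra k A] [Module.Finite k A]
    (l : List A), (∀ x ∈ l, IsNilpotent x) →
    ∃ (P : Type u) (_ : CommRing P) (_ : Algebra k P) (q : P →ₐ[k] A) (C : ℕ),
      (∀ x ∈ l, x ∈ q.range) ∧ BCc ((Algebra.lmul k A).comp q) C

/-- The local case. -/
def T_LOC : Prop :=
  ∀ (k A : Type u) [Field k] [IsAlgClosed k] [CommRing A] [Algebra k A] [Module.Finite k A]
    (α : A →ₐ[k] k) (c : ℕ), RingHom.ker α ^ c = ⊥ →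
    ∃ C : ℕ, ∀ b : ℕ, Dle k (A ⊗[k] ZZ k b) (finrank k A * b + C)

/-- BOUNDED CATALYSIS. -/
def T_BC : Prop :=
  ∀ (k A : Type u) [Field k] [IsAlgClosed k] [CommRing A] [Algebra k A] [Module.Finite k A]
    [Nontrivial A], ∃ C : ℕ, ∀ b : ℕ, Dle k (A ⊗[k] ZZ k b) (finrank k A * b + C)

/-- The quantitative form. -/
def T_QNT : Prop :=
  ∀ (k A : Type u) [Field k] [IsAlgClosed k] [CommRing A] [Algebra k A] [Module.Finite k A]
    [Nontrivial A], ∃ C : ℕ, ∀ b : ℕ,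
      (defect k (A ⊗[k] ZZ k b)).toNat ≤ C ∧
      Lam k (A ⊗[k] ZZ k b) ≤ finrank k A * ((b : ℝ) + 1) + C ∧
      Lam k (A × ZZ k b) ≤ finrank k A + ((b : ℝ) + 1) + C / ((b : ℝ) + 1)

end Pool.Agent.H62.BC
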