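import Pool.Agent.H62.BC.P1


/-!
# Uniform version, for modules
-/

open TensorProduct Module

namespace Pool.Agent.H62.BC

open Pool.Agent.H12.Defect Pool.Agent.H15.Defect Pool.Agent.H15.CX Pool.Agent.H2.WG
open Pool.Agent.H15.ER
open Pool.Agent.H14.RF hiding tr

universe u

/-- Freeing one variable, uniformly. -/
def T_P1u : Prop :=
  ∀ (k : Type u) [Field k] [IsAlgClosed k] (e m C : ℕ), ∃ (L C' : ℕ), e ≤ L ∧
    ∀ (P E : Type u) [CommRing P] [Algebra k P] [AddCommGroup E] [Module k E]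
      (ρ : P →ₐ[k] Module.End k E) (t : Module.End k E) (hc : ∀ p y, ρ p (t y) = t (ρ p y))
      (ht : t ^ (L + 1) = 0), t ^ (e + 1) = 0 → finrank k E = m → BCc ρ C →
      BCc (act ρ L t ht hc) C'

theorem pf_P1u (h3 : T_L3.{u}) (hA : T_STA.{u}) (hB : T_STB.{u}) (hC : T_STC.{u})
    (hG : T_GOOD.{u}) : T_P1u.{u} := by
  intro k _ _ e m C
  obtain ⟨n, hn, hM⟩ := h3 k e
  obtain ⟨L, rfl⟩ : ∃ L, n = L + 1 := ⟨n - 1, by omega⟩
  refine ⟨L, ((L + 1) + (L + 1) * (e + 1)) * m + (L + 1) * C, by omega, ?_⟩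
  intro P E _ _ _ _ ρ t hc ht hte hm hBC u
  subst hm
  set h : ℕ := (u + (L + 1)) / ((L + 1) * (e + 1)) + 1 with hh
  obtain ⟨M, hgood, hcoef⟩ := hM h
  have hcard : Fintype.card (Fin (e + 1) × Fin h) = (e + 1) * h := by simp
  have h1 := dle_step hA hB hC hG ρ t hc L e ht hte M hgood hcoef
    (((e + 1) * h) * finrank k E + C) (by rw [hcard]; exact hBC _)
  rw [hcard] at h1
  have hpos : 0 < (L + 1) * (e + 1) := by positivity
  have h4 := Nat.div_add_mod (u + (L + 1)) ((L + 1) * (e + 1))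
  have h5 := Nat.mod_lt (u + (L + 1)) hpos
  have h6 : (L + 1) * ((e + 1) * h) = (L + 1) * (e + 1) * ((u + (L + 1)) / ((L + 1) * (e + 1))) +
      (L + 1) * (e + 1) := by
    rw [hh]
    ring
  have h7 : u + (L + 1) ≤ (L + 1) * ((e + 1) * h) := by omega
  have h8 : (L + 1) * ((e + 1) * h) ≤ u + (L + 1) + (L + 1) * (e + 1) := by omega
  have h9 : u ≤ (L + 1) * ((e + 1) * h - 1) := by
    rw [Nat.mul_sub, mul_one]
    omega
  refine ((leM_powE_mono _ h9).dle h1).mono ?_
  calc ((e + 1) * h * finrank k E + C) * (L + 1) =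
      (L + 1) * ((e + 1) * h) * finrank k E + (L + 1) * C := by ring
    _ ≤ (u + (L + 1) + (L + 1) * (e + 1)) * finrank k E + (L + 1) * C :=
        Nat.add_le_add_right (Nat.mul_le_mul_right _ h8) _
    _ = _ := by ring

section gen

variable {k A E P : Type u} [Field k] [CommRing A] [Algebra k A] [AddCommGroup E] [Module k E]
  [CommRing P] [Algebra k P]

theorem gen_nil [Module.Finite k E] (ρ : A →ₐ[k] Module.End k E) :
    BCc (ρ.comp (Algebra.ofId k A)) 1 := by
  intro n
  have e : (Fin (n * finrank k E) → k) ≃ₗ[k] (Fin n → E) :=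
    LinearEquiv.ofFinrankEq _ _ (by rw [Module.finrank_fin_fun, Module.finrank_pi_fintype]; simp)
  let f0 : ZZ k (n * finrank k E) →ₗ[k] Idm (powE (ρ.comp (Algebra.ofId k A)) (Fin n)) :=
    { toFun := fun z => ((z.fst, e z.snd) : k × (Fin n → E))
      map_add' := by
        intro a b
        apply Idm.ext'
        · rfl
        · exact map_add e _ _
      map_smul' := by
        intro c a
        apply Idm.ext'
        · rfl
        · exact map_smul e _ _ }
  have h1 : ∀ z, (f0 z).1 = z.fst := fun _ => rfl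
  have h2 : ∀ z, (f0 z).2 = e z.snd := fun _ => rfl
  have hact : ∀ (c : k) (v : Fin n → E),
      powE (ρ.comp (Algebra.ofId k A)) (Fin n) c v = c • v := by
    intro c v
    funext i
    rw [powE_apply]
    show ρ (Algebra.ofId k A c) (v i) = c • v i
    rw [Algebra.ofId_apply, AlgHom.commutes, Module.algebraMap_end_apply]
  let f : ZZ k (n * finrank k E) →ₐ[k] Idm (powE (ρ.comp (Algebra.ofId k A)) (Fin n)) :=
    AlgHom.ofLinearMap f0
      (by
        apply Idm.ext'
        · rfl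
        · rw [h2]
          change e 0 = 0
          exact map_zero e)
      (by
        intro z w
        apply Idm.ext'
        · rfl
        · rw [h2, Idm.mul_snd, h1, h1, h2, h2, hact, hact, TrivSqZeroExt.snd_mul, map_add, map_smul]
          congr 1
          rw [← map_smul, op_smul_eq_smul])
  have hf : Function.Surjective f := by
    intro a
    refine ⟨TrivSqZeroExt.inl a.1 + TrivSqZeroExt.inr (e.symm a.2), ?_⟩
    apply Idm.ext'
    · change (TrivSqZeroExt.inl a.1 + TrivSqZeroExt.inr (e.symm a.2) :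
        TrivSqZeroExt k (Fin (n * finrank k E) → k)).fst = a.1
      simp
    · change e (TrivSqZeroExt.inl a.1 + TrivSqZeroExt.inr (e.symm a.2) :
        TrivSqZeroExt k (Fin (n * finrank k E) → k)).snd = a.2
      simp
  exact (dle_ZZ k (n * finrank k E)).of_surjective f hf

theorem gen_cons (ρ : A →ₐ[k] Module.End k E) (q : P →ₐ[k] A) (x : A) (L : ℕ)
    (hc : ∀ p y, (ρ.comp q) p (ρ x y) = ρ x ((ρ.comp q) p y))
    (hx : x ^ (L + 1) = 0) (ht : (ρ x) ^ (L + 1) = 0) :
    ∃ q' : PT k P L →ₐ[k] A, (∀ p, q' (pt p 1) = q p) ∧ q' (pt 1 (tr k L)) = x ∧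
      act (ρ.comp q) L (ρ x) ht hc = ρ.comp q' := by
  let s : Tr k L →ₐ[k] A := Ideal.Quotient.liftₐ _ (Polynomial.aeval x) (by
    intro a ha
    obtain ⟨b, rfl⟩ := Ideal.mem_span_singleton.mp ha
    rw [map_mul, map_pow, Polynomial.aeval_X, hx, zero_mul])
  have hs : ∀ p : Polynomial k, s (Ideal.Quotient.mk _ p) = Polynomial.aeval x p := fun _ => rfl
  let q' : PT k P L →ₐ[k] A :=
    (Algebra.TensorProduct.lift q s (fun p r => mul_comm _ _) : P ⊗[k] Tr k L →ₐ[k] A)
  have hq' : ∀ (p : P) (r : Tr k L), q' (pt p r) = q p * s r := fun _ _ => rfl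
  refine ⟨q', fun p => ?_, ?_, ?_⟩
  · rw [hq', map_one, mul_one]
  · rw [hq', map_one, one_mul, tr, hs, Polynomial.aeval_X]
  · refine AlgHom.ext fun r => LinearMap.ext fun y => ?_
    induction r using PT.induction with
    | zero => rw [map_zero, map_zero]
    | add r r' hr hr' => rw [map_add, map_add, LinearMap.add_apply, LinearMap.add_apply, hr, hr']
    | tmul p r =>
      rw [act_tmul]
      show ρ (q p) _ = ρ (q' (pt p r)) y
      rw [hq', map_mul, Module.End.mul_apply]
      congr 1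
      obtain ⟨a, rfl⟩ := Ideal.Quotient.mk_surjective r
      rw [trA_mk, hs]
      have : Polynomial.aeval (ρ x) a = ρ (Polynomial.aeval x a) :=
        Polynomial.aeval_algHom_apply ρ x a
      rw [this]

end gen

theorem gen_u (h : T_P1u.{u}) (k : Type u) [Field k] [IsAlgClosed k] (e m : ℕ) :
    ∀ r : ℕ, ∃ C : ℕ, ∀ (A E : Type u) [CommRing A] [Algebra k A] [AddCommGroup E] [Module k E]
      [Module.Finite k E] (ρ : A →ₐ[k] Module.End k E), Function.Injective ρ → finrank k E = m →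
      ∀ l : List A, l.length = r → (∀ x ∈ l, x ^ (e + 1) = 0) →
      ∃ (P : Type u) (_ : CommRing P) (_ : Algebra k P) (q : P →ₐ[k] A),
        (∀ x ∈ l, x ∈ q.range) ∧ BCc (ρ.comp q) C := by
  intro r
  induction r with
  | zero =>
    refine ⟨1, ?_⟩
    intro A E _ _ _ _ _ ρ _ _ l hl _
    have hl0 : l = [] := List.length_eq_zero_iff.mp hl
    subst hl0
    exact ⟨k, inferInstance, inferInstance, Algebra.ofId k A, by simp, gen_nil ρ⟩
  | succ r ih =>
    obtain ⟨C, hC⟩ := ih
    obtain ⟨L, C', hL, h⟩ := h k e m C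
    refine ⟨C', ?_⟩
    intro A E _ _ _ _ _ ρ hρ hm l hl hnil
    obtain ⟨x, l, rfl⟩ := List.exists_cons_of_length_eq_add_one hl
    obtain ⟨P, iP, aP, q, hq, hBC⟩ := hC A E ρ hρ hm l (by simpa using hl)
      (fun y hy => hnil y (List.mem_cons_of_mem x hy))
    have hc : ∀ p y, (ρ.comp q) p (ρ x y) = ρ x ((ρ.comp q) p y) := by
      intro p y
      exact Idm.ρcomm (ρ := ρ) (q p) x y
    have hx : x ^ (e + 1) = 0 := hnil x List.mem_cons_self
    have hx' : x ^ (L + 1) = 0 := pow_eq_zero_of_le (by omega) hx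
    have ht : ρ x ^ (L + 1) = 0 := by rw [← map_pow, hx', map_zero]
    have hte : ρ x ^ (e + 1) = 0 := by rw [← map_pow, hx, map_zero]
    have h4 := h P E (ρ.comp q) (ρ x) hc ht hte hm hBC
    obtain ⟨q', h1, h2, h3⟩ := gen_cons ρ q x L hc hx' ht
    refine ⟨PT k P L, inferInstance, inferInstance, q', ?_, ?_⟩
    · intro y hy
      rcases List.mem_cons.1 hy with rfl | hy
      · exact ⟨_, h2⟩
      · obtain ⟨p, hp⟩ := hq y hy
        exact ⟨pt p 1, (h1 p).trans hp⟩
    · rw [← h3]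
      exact h4

end Pool.Agent.H62.BC
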